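import Pool.Agent.Work.MP_970e75_an.Gen.TwoFlows

/-!
Nontrivial holomorphic one-parameter subgroups of closed submanifolds.
-/

namespace Pool.Agent.Work.MP_970e75_an.Gen

open Filter Topology Set
open scoped Manifold ContDiff

variable {E' : Type*} [NormedAddCommGroup E'] [NormedSpace ℂ E'] {Y W : Type*}
  [TopologicalSpace Y] [ChartedSpace E' Y] [Group Y]
  [NormedAddCommGroup W] [NormedSpace ℂ W]

theorem differentiable_comp {n : ℂ → Y} (hn : MDifferentiable 𝓘(ℂ, ℂ) 𝓘(ℂ, E') n) {ι : Y → W}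
    (hι : MDifferentiable 𝓘(ℂ, E') 𝓘(ℂ, W) ι) : Differentiable ℂ fun s => ι (n s) :=
  mdifferentiable_iff_differentiable.mp (hι.comp hn)

/-- The level sets of a nontrivial one-parameter subgroup are countable. -/
theorem countable_level [CompleteSpace W] {n : ℂ → Y}
    (hn : MDifferentiable 𝓘(ℂ, ℂ) 𝓘(ℂ, E') n)
    (hadd : ∀ s t, n (s + t) = n s * n t) (hne : ∃ s, n s ≠ 1) {ι : Y → W}
    (hι : MDifferentiable 𝓘(ℂ, E') 𝓘(ℂ, W) ι) (hinj : Function.Injective ι) (k : Y) :
    {s : ℂ | n s = k}.Countable := by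
  have hn0 : n 0 = 1 := by
    have h := hadd 0 0
    rw [add_zero] at h
    exact (mul_eq_left.mp h.symm)
  obtain ⟨s1, hs1⟩ := hne
  obtain ⟨x, hx⟩ : ∃ x, n x ≠ k := by
    by_contra hcon
    push Not at hcon
    apply hs1
    rw [hcon s1, ← hcon 0, hn0]
  have hd : Differentiable ℂ fun s => ι (n s) - ι k := (differentiable_comp hn hι).sub_const _
  have han : AnalyticOnNhd ℂ (fun s => ι (n s) - ι k) univ := hd.differentiableOn.analyticOnNhd
    isOpen_univ
  have hcod := han.preimage_zero_mem_codiscrete (x := x) (by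
    simp only [ne_eq, sub_eq_zero]
    exact fun h => hx (hinj h))
  have hset : (fun s => ι (n s) - ι k) ⁻¹' {0}ᶜ = {s : ℂ | n s = k}ᶜ := by
    ext s
    simp only [mem_preimage, mem_compl_iff, mem_singleton_iff, sub_eq_zero, mem_ofPred_eq]
    exact ⟨fun h h' => h (by rw [h']), fun h h' => h (hinj h')⟩
  rw [hset, mem_codiscrete'] at hcod
  obtain ⟨-, hdisc⟩ := hcod
  rw [compl_compl] at hdisc
  have hdt : DiscreteTopology {s : ℂ | n s = k} := hdisc.to_subtype
  have : Countable {s : ℂ | n s = k} :=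
    TopologicalSpace.separableSpace_iff_countable.mp inferInstance
  exact Set.countable_coe_iff.mp this

/-- A nontrivial one-parameter subgroup is unbounded. -/
theorem exists_filter {n : ℂ → Y} (hn : MDifferentiable 𝓘(ℂ, ℂ) 𝓘(ℂ, E') n)
    (hadd : ∀ s t, n (s + t) = n s * n t) (hne : ∃ s, n s ≠ 1) {ι : Y → W}
    (hι : MDifferentiable 𝓘(ℂ, E') 𝓘(ℂ, W) ι) (hinj : Function.Injective ι) :
    ∃ l : Filter ℂ, l.NeBot ∧ ∀ K : Set Y, IsCompact K → ∀ᶠ s in l, n s ∉ K := by
  have hn0 : n 0 = 1 := by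
    have h := hadd 0 0
    rw [add_zero] at h
    exact (mul_eq_left.mp h.symm)
  refine ⟨comap (fun s => ‖ι (n s)‖) atTop, ?_, ?_⟩
  · rw [comap_neBot_iff_frequently]
    rw [frequently_atTop]
    intro R
    by_contra hcon
    push Not at hcon
    have hb : Bornology.IsBounded (range fun s => ι (n s)) := by
      apply (isBounded_iff_forall_norm_le).mpr
      refine ⟨R, ?_⟩
      rintro _ ⟨s, rfl⟩
      by_contra h
      push Not at h
      exact hcon _ h.le ⟨s, rfl⟩
    obtain ⟨s1, hs1⟩ := hne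
    apply hs1
    have := (differentiable_comp hn hι).apply_eq_apply_of_bounded hb s1 0
    rw [hinj this, hn0]
  · intro K hK
    obtain ⟨R, hR⟩ := (hK.image hι.continuous).isBounded.exists_norm_le
    have h1 : ∀ᶠ r : ℝ in atTop, R < r := eventually_gt_atTop R
    filter_upwards [h1.comap (fun s => ‖ι (n s)‖)] with s hs hmem
    have := hR _ ⟨_, hmem, rfl⟩
    linarith

end Pool.Agent.Work.MP_970e75_an.Gen
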