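import Mathlib

/-!
Tame discrete subsets of complex Lie groups.
-/

namespace Pool.Agent.Work.MP_970e75_an.Gen

open scoped Manifold ContDiff

/-- The complex manifold `G` is Stein: it has an injective proper holomorphic map to some `ℂ^l`,
that is, a holomorphic map which is a homeomorphism onto a closed subset of `ℂ^l`
(Remmert-Bishop-Narasimhan embedding theorem; conversely a complex manifold with such a map is
Stein). -/
def IsStein (E : Type) [NormedAddCommGroup E] [NormedSpace ℂ E] (G : Type) [TopologicalSpace G]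
    [ChartedSpace E G] : Prop :=
  ∃ (l : ℕ) (ι : G → Fin l → ℂ), MDifferentiable 𝓘(ℂ, E) 𝓘(ℂ, Fin l → ℂ) ι ∧
    Topology.IsClosedEmbedding ι

/-- An automorphism of the complex manifold `G` (modelled on the complex vector space `E`): a
bijection of `G` onto itself, holomorphic in both directions (not necessarily a group
homomorphism when `G` is a group). -/
def IsAutomorphism (E : Type*) [NormedAddCommGroup E] [NormedSpace ℂ E] {G : Type*}
    [TopologicalSpace G] [ChartedSpace E G] (φ : G ≃ G) : Prop :=
  MDifferentiable 𝓘(ℂ, E) 𝓘(ℂ, E) φ ∧ MDifferentiable 𝓘(ℂ, E) 𝓘(ℂ, E) φ.symm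

/-- An exhaustion function: continuous, nonnegative, with compact sublevel sets. -/
def IsExhaustion {G : Type*} [TopologicalSpace G] (ρ : G → ℝ) : Prop :=
  Continuous ρ ∧ (∀ g, 0 ≤ ρ g) ∧ ∀ r : ℝ, IsCompact {g | ρ g ≤ r}

/-- Tameness (Winkelmann's weak notion) of a subset `D` of the complex manifold `G`: for every
exhaustion function `ρ` and every function `ζ` there is an automorphism `φ` of `G` with
`ρ (φ x) ≥ ζ x` on `D`. -/
def IsTame (E : Type*) [NormedAddCommGroup E] [NormedSpace ℂ E] {G : Type*}
    [TopologicalSpace G] [ChartedSpace E G] (D : Set G) : Prop :=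
  ∀ ρ : G → ℝ, IsExhaustion ρ → ∀ ζ : G → ℝ,
    ∃ φ : G ≃ G, IsAutomorphism E φ ∧ ∀ x ∈ D, ζ x ≤ ρ (φ x)

end Pool.Agent.Work.MP_970e75_an.Gen
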