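import Pool.Agent.Work.MP_970e75_an.Avoid
import Pool.Agent.Work.MP_970e75_an.Basic
import Pool.Agent.Work.MP_970e75_an.Gen.Defs

/-!
Tameness of uniformly discrete subsets of a complex Lie group from two flows.
-/

namespace Pool.Agent.Work.MP_970e75_an.Gen

open Filter Topology Set MeasureTheory
open scoped Manifold ContDiff

variable {E : Type*} [NormedAddCommGroup E] [NormedSpace ℂ E] {G : Type*}
    [TopologicalSpace G] [ChartedSpace E G]

theorem IsAutomorphism.trans {φ ψ : G ≃ G} (hφ : IsAutomorphism E φ) (hψ : IsAutomorphism E ψ) :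
    IsAutomorphism E (φ.trans ψ) :=
  ⟨hψ.1.comp hφ.1, hφ.2.comp hψ.2⟩

section Lie

variable [Group G] [LieGroup 𝓘(ℂ, E) ω G]

theorem mdiff_mul {E' : Type*} [NormedAddCommGroup E'] [NormedSpace ℂ E'] {M : Type*}
    [TopologicalSpace M] [ChartedSpace E' M] {f g : M → G}
    (hf : MDifferentiable 𝓘(ℂ, E') 𝓘(ℂ, E) f) (hg : MDifferentiable 𝓘(ℂ, E') 𝓘(ℂ, E) g) :
    MDifferentiable 𝓘(ℂ, E') 𝓘(ℂ, E) fun x => f x * g x :=
  ((contMDiff_mul 𝓘(ℂ, E) ω (G := G)).mdifferentiable (by simp)).comp (hf.prodMk hg)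

theorem mdiff_inv {E' : Type*} [NormedAddCommGroup E'] [NormedSpace ℂ E'] {M : Type*}
    [TopologicalSpace M] [ChartedSpace E' M] {f : M → G}
    (hf : MDifferentiable 𝓘(ℂ, E') 𝓘(ℂ, E) f) :
    MDifferentiable 𝓘(ℂ, E') 𝓘(ℂ, E) fun x => (f x)⁻¹ :=
  ((contMDiff_inv 𝓘(ℂ, E) ω (G := G)).mdifferentiable (by simp)).comp hf

theorem isAutomorphism_mulLeft (τ : G) : IsAutomorphism E (Equiv.mulLeft τ) :=
  ⟨mdiff_mul mdifferentiable_const mdifferentiable_id,
    mdiff_mul mdifferentiable_const mdifferentiable_id⟩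

theorem isAutomorphism_mulRight (τ : G) : IsAutomorphism E (Equiv.mulRight τ) :=
  ⟨mdiff_mul mdifferentiable_id mdifferentiable_const,
    mdiff_mul mdifferentiable_id mdifferentiable_const⟩

end Lie

/-- Tameness may be checked after an automorphism. -/
theorem isTame_of_image (D : Set G) (ψ : G ≃ G) (hψ : IsAutomorphism E ψ)
    (h : IsTame E (ψ '' D)) : IsTame E D := by
  intro ρ hρ ζ
  obtain ⟨φ, hφ, hφD⟩ := h ρ hρ (fun x => ζ (ψ.symm x))
  refine ⟨ψ.trans φ, hψ.trans hφ, ?_⟩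
  intro x hx
  have := hφD (ψ x) ⟨x, hx, rfl⟩
  rw [Equiv.symm_apply_apply] at this
  exact this

variable [MeasurableSpace G] {μ : Measure G}
  {W : Type*} [NormedAddCommGroup W] [NormedSpace ℂ W]

/-- The shear as a bijection. -/
noncomputable def shearEquiv (F : FlowData G μ W) (f : W → ℂ) : G ≃ G where
  toFun := F.shear f
  invFun := F.shear (fun w => - f w)
  left_inv := F.shear_neg f
  right_inv := F.shear_neg' f

theorem isAutomorphism_shearEquiv (F : FlowData G μ W)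
    (hol : ∀ f, Differentiable ℂ f → MDifferentiable 𝓘(ℂ, E) 𝓘(ℂ, E) (F.shear f)) (f : W → ℂ)
    (hf : Differentiable ℂ f) : IsAutomorphism E (shearEquiv F f) :=
  ⟨hol f hf, hol _ hf.neg⟩

/-- The second shear as a bijection. -/
noncomputable def flowEquiv {W' : Type*} (q' : G → W') (θ' : ℂ → G → G) (h0 : ∀ g, θ' 0 g = g)
    (hadd : ∀ s t g, θ' (s + t) g = θ' s (θ' t g)) (hq : ∀ s g, q' (θ' s g) = q' g)
    (h : W' → ℂ) : G ≃ G where
  toFun g := θ' (h (q' g)) g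
  invFun g := θ' (- h (q' g)) g
  left_inv g := by
    simp only
    rw [hq, ← hadd, neg_add_cancel, h0]
  right_inv g := by
    simp only
    rw [hq, ← hadd, add_neg_cancel, h0]

/-- Uniformly discrete subsets are tame in the presence of two suitable flows. -/
theorem isTame_of_flows [Group G] [LieGroup 𝓘(ℂ, E) ω G] [IsTopologicalGroup G] [T2Space G]
    [BorelSpace G] [LocallyCompactSpace G]
    [SecondCountableTopology G] [μ.IsMulRightInvariant]
    [μ.IsOpenPosMeasure] [IsFiniteMeasureOnCompacts μ] [SFinite μ]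
    {W' : Type*} [NormedAddCommGroup W'] [NormedSpace ℂ W'] [FiniteDimensional ℂ W']
    (F : FlowData G μ W) (q' : G → W') (hp : ∀ g, F.p g = ‖q' g‖) (θ' : ℂ → G → G)
    (h0 : ∀ g, θ' 0 g = g) (hadd : ∀ s t g, θ' (s + t) g = θ' s (θ' t g))
    (hq : ∀ s g, q' (θ' s g) = q' g) (l : Filter ℂ) [l.NeBot]
    (hesc : ∀ (g : G) (K : Set G), IsCompact K → ∀ᶠ s in l, θ' s g ∉ K)
    (hol1 : ∀ f : W → ℂ, Differentiable ℂ f → MDifferentiable 𝓘(ℂ, E) 𝓘(ℂ, E) (F.shear f))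
    (hol2 : ∀ h : W' → ℂ, Differentiable ℂ h →
      MDifferentiable 𝓘(ℂ, E) 𝓘(ℂ, E) (fun g => θ' (h (q' g)) g))
    (D : Set G) (hD : D.Countable)
    (hsep : ∀ d ∈ D, ∀ d' ∈ D, d ≠ d' → μ {τ | F.q (τ * d) = F.q (τ * d')} = 0)
    (U : Set G) (hU : IsOpen U) (hU1 : (1 : G) ∈ U)
    (hdisj : ∀ d ∈ D, ∀ d' ∈ D, ∀ τ ∈ U, ∀ τ' ∈ U, τ * d = τ' * d' → d = d') :
    IsTame E D := by
  classical
  intro ρ hρ ζ
  obtain ⟨L, hL, hL1⟩ := exists_compact_mem_nhds (1 : G)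
  obtain ⟨τ, -, f, hf, hfin⟩ := exists_proper_shear F D hD hsep (U ∩ interior L)
    (hU.inter isOpen_interior) ⟨1, hU1, mem_interior_iff_mem_nhds.mpr hL1⟩
    (fun d hd d' hd' τ hτ τ' hτ' h => hdisj d hd d' hd' τ hτ.1 τ' hτ'.1 h) L hL
    (inter_subset_right.trans interior_subset)
  let T : G → G := fun d => F.shear f (τ * d)
  have hfin' : ∀ R : ℝ, {d | d ∈ D ∧ ‖q' (T d)‖ ≤ R}.Finite := by
    intro R
    have := hfin R
    simp only [hp] at this
    exact this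
  set P : Set W' := (fun d => q' (T d)) '' D with hP
  have hPfin : ∀ R : ℝ, {w ∈ P | ‖w‖ ≤ R}.Finite := by
    intro R
    refine ((hfin' R).image (fun d => q' (T d))).subset ?_
    rintro w ⟨⟨d, hd, rfl⟩, hn⟩
    exact ⟨d, ⟨hd, hn⟩, rfl⟩
  have hval : ∀ w : W', ∃ v : ℂ, ∀ d ∈ D, q' (T d) = w → ζ d ≤ ρ (θ' v (T d)) := by
    intro w
    have hfinw : {d | d ∈ D ∧ q' (T d) = w}.Finite := by
      refine (hfin' ‖w‖).subset ?_
      rintro d ⟨hd, rfl⟩
      exact ⟨hd, le_rfl⟩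
    have hev : ∀ᶠ s in l, ∀ d ∈ hfinw.toFinset, θ' s (T d) ∉ {g | ρ g ≤ ζ d} := by
      rw [Finset.eventually_all]
      intro d _
      exact hesc (T d) _ (hρ.2.2 (ζ d))
    obtain ⟨v, hv⟩ := hev.exists
    refine ⟨v, ?_⟩
    intro d hd hw
    have := hv d (hfinw.mem_toFinset.mpr ⟨hd, hw⟩)
    simp only [mem_ofPred_eq, not_le] at this
    exact this.le
  choose v hv using hval
  obtain ⟨h, hh, hhv⟩ := exists_entire_values P hPfin v
  refine ⟨((Equiv.mulLeft τ).trans (shearEquiv F f)).trans (flowEquiv q' θ' h0 hadd hq h), ?_, ?_⟩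
  · apply IsAutomorphism.trans
    · exact (isAutomorphism_mulLeft τ).trans (isAutomorphism_shearEquiv F hol1 f hf)
    · exact ⟨hol2 h hh, hol2 _ hh.neg⟩
  · intro d hd
    show ζ d ≤ ρ (θ' (h (q' (T d))) (T d))
    rw [hhv _ ⟨d, hd, rfl⟩]
    exact hv _ d hd rfl

end Pool.Agent.Work.MP_970e75_an.Gen
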