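import Pool.Agent.Work.MP_970e75_an.Gen.ExtFlow
import Pool.Agent.Work.MP_970e75_an.Gen.TwoFlows

/-!
Discrete subgroups of trivial bundle extensions are tame.
-/

set_option linter.unusedSectionVars false

namespace Pool.Agent.Work.MP_970e75_an.Gen

open Filter Topology Set MeasureTheory
open scoped Manifold ContDiff

/-- A neighbourhood of the identity with disjoint translates by a discrete subgroup. -/
theorem exists_disjoint_nhd {G : Type*} [Group G] [TopologicalSpace G] [IsTopologicalGroup G]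
    (Γ : Subgroup G) [DiscreteTopology Γ] :
    ∃ U : Set G, IsOpen U ∧ (1 : G) ∈ U ∧
      ∀ γ ∈ Γ, ∀ γ' ∈ Γ, ∀ τ ∈ U, ∀ τ' ∈ U, τ * γ = τ' * γ' → γ = γ' := by
  have h1 : IsOpen ({1} : Set Γ) := isOpen_discrete _
  obtain ⟨V, hV, hV1⟩ := isOpen_induced_iff.mp h1
  have hmem : (1 : G) ∈ V := by
    have : (1 : Γ) ∈ (Subtype.val ⁻¹' V : Set Γ) := by rw [hV1]; rfl
    exact this
  have hcont : Continuous fun x : G × G => x.2⁻¹ * x.1 := by fun_prop
  have hpre : (fun x : G × G => x.2⁻¹ * x.1) ⁻¹' V ∈ 𝓝 ((1 : G), (1 : G)) := by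
    apply (hV.preimage hcont).mem_nhds
    simpa using hmem
  obtain ⟨u, v, hu, hu1, hv, hv1, huv⟩ := mem_nhds_prod_iff'.mp hpre
  refine ⟨u ∩ v, hu.inter hv, ⟨hu1, hv1⟩, ?_⟩
  intro γ hγ γ' hγ' τ hτ τ' hτ' hEq
  have h2 : τ'⁻¹ * τ = γ' * γ⁻¹ := by
    rw [inv_mul_eq_iff_eq_mul, ← mul_assoc, ← hEq, mul_inv_cancel_right]
  have h3 : τ'⁻¹ * τ ∈ V := huv (Set.mk_mem_prod hτ.1 hτ'.2)
  have h4 : γ' * γ⁻¹ ∈ Γ := Γ.mul_mem hγ' (Γ.inv_mem hγ)
  rw [h2] at h3
  have h5 : (⟨γ' * γ⁻¹, h4⟩ : Γ) ∈ (Subtype.val ⁻¹' V : Set Γ) := h3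
  rw [hV1] at h5
  have h6 : γ' * γ⁻¹ = 1 := congrArg Subtype.val h5
  exact (mul_inv_eq_one.mp h6).symm

variable {E E' : Type*} [NormedAddCommGroup E] [NormedSpace ℂ E] [NormedAddCommGroup E']
  [NormedSpace ℂ E'] {G Y C W W' : Type*}
  [TopologicalSpace G] [ChartedSpace E G] [Group G] [LieGroup 𝓘(ℂ, E) ω G]
  [TopologicalSpace Y] [ChartedSpace E' Y] [Group Y] [LieGroup 𝓘(ℂ, E') ω Y]
  [CommGroup C] [TopologicalSpace C] [IsTopologicalGroup C]
  [NormedAddCommGroup W] [NormedSpace ℂ W] [NormedAddCommGroup W'] [NormedSpace ℂ W']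

theorem isTame_of_ext [FiniteDimensional ℂ W] [FiniteDimensional ℂ W']
    [LocallyCompactSpace C] [T2Space C] [SecondCountableTopology C] [(𝓝[≠] (1 : C)).NeBot]
    (X : Ext G Y C) (D : ExtFlow Y C W W')
    (hπ : MDifferentiable 𝓘(ℂ, E) 𝓘(ℂ, E') X.π) (hσ : MDifferentiable 𝓘(ℂ, E') 𝓘(ℂ, E) X.σ)
    (hce : MDifferentiable 𝓘(ℂ, ℂ) 𝓘(ℂ, E) fun s => X.c (D.e s))
    (hn : MDifferentiable 𝓘(ℂ, ℂ) 𝓘(ℂ, E') D.n)
    (hι : MDifferentiable 𝓘(ℂ, E') 𝓘(ℂ, W) D.ι) (hιc : IsClosedEmbedding D.ι)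
    (hφ : ∀ a : G → ℂ, MDifferentiable 𝓘(ℂ, E) 𝓘(ℂ, ℂ) a →
      MDifferentiable 𝓘(ℂ, E) 𝓘(ℂ, ℂ) fun g => D.φ (D.e (a g) * X.t g))
    (hj : MDifferentiable 𝓘(ℂ, E) 𝓘(ℂ, W') fun g => D.j (X.t g))
    (hcount : ∀ (b b' : C) (k : Y), (b ≠ b' ∨ k ≠ 1) →
      {z : C | D.n (D.φ (z * b) - D.φ (z * b')) = k}.Countable)
    (l : Filter ℂ) [l.NeBot]
    (hesc : ∀ (K : Set Y), IsCompact K → ∀ᶠ s in l, D.n s ∉ K)
    (Γ : Subgroup G) [DiscreteTopology Γ] : IsTame E (Γ : Set G) := by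
  have hTG : IsTopologicalGroup G := topologicalGroup_of_lieGroup 𝓘(ℂ, E) ω
  have hTY : IsTopologicalGroup Y := topologicalGroup_of_lieGroup 𝓘(ℂ, E') ω
  have hscY : SecondCountableTopology Y := hιc.isEmbedding.secondCountableTopology
  have hlcY : LocallyCompactSpace Y := hιc.locallyCompactSpace
  have ht2Y : T2Space Y := hιc.isEmbedding.t2Space
  have hscG : SecondCountableTopology G := X.homeo.isEmbedding.secondCountableTopology
  have hlcG : LocallyCompactSpace G := X.homeo.isClosedEmbedding.locallyCompactSpace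
  have ht2G : T2Space G := X.homeo.isEmbedding.t2Space
  let _ : MeasurableSpace G := borel G
  have hBG : BorelSpace G := ⟨rfl⟩
  let _ : MeasurableSpace Y := borel Y
  have hBY : BorelSpace Y := ⟨rfl⟩
  let _ : MeasurableSpace C := borel C
  have hBC : BorelSpace C := ⟨rfl⟩
  set ν : Measure Y := (Measure.haar : Measure Y).inv with hν
  set κ : Measure C := Measure.haar with hκ
  set μ : Measure G := X.measure ν κ with hμ
  have hinv : μ.IsMulRightInvariant := X.isMulRightInvariant ν κ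
  have hfin : IsFiniteMeasureOnCompacts μ := by rw [hμ]; infer_instance
  have hop : μ.IsOpenPosMeasure := by rw [hμ]; infer_instance
  have hsf : SFinite μ := by rw [hμ]; infer_instance
  set F := D.flow X ν κ with hF
  have hcountΓ : Countable Γ := TopologicalSpace.separableSpace_iff_countable.mp inferInstance
  obtain ⟨U, hU, hU1, hUdisj⟩ := exists_disjoint_nhd Γ
  -- holomorphy of the coordinates
  have hφt : MDifferentiable 𝓘(ℂ, E) 𝓘(ℂ, ℂ) fun g => D.φ (X.t g) := by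
    have := hφ (fun _ => 0) mdifferentiable_const
    simpa only [D.e_zero, one_mul] using this
  have hq : MDifferentiable 𝓘(ℂ, E) 𝓘(ℂ, W) F.q :=
    hι.comp (mdiff_mul hπ (hn.comp hφt))
  have hbase : MDifferentiable 𝓘(ℂ, E) 𝓘(ℂ, E) fun g => g * (X.σ (X.π g))⁻¹ :=
    mdiff_mul mdifferentiable_id (mdiff_inv (hσ.comp hπ))
  have hbase_eq : ∀ g : G, g * (X.σ (X.π g))⁻¹ = X.c (X.t g) := by
    intro g
    conv_lhs => rw [← X.eq_mk g]
    rw [X.π_mk, mul_inv_cancel_right]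
  apply isTame_of_flows (μ := μ) F (fun g => D.j (X.t g)) (fun g => rfl)
    (fun s g => X.point (X.π g * D.n s) (X.t g))
    (fun g => by rw [D.n_zero, mul_one, X.eq_mk'])
    (fun s u g => by
      rw [X.π_mk', X.t_mk', mul_assoc, ← D.n_add, add_comm])
    (fun s g => by rw [X.t_mk']) l ?_ ?_ ?_ (Γ : Set G) (Set.to_countable _) ?_ U hU hU1 hUdisj
  · -- escape
    intro g K hK
    have hK' : IsCompact ((fun y => (X.π g)⁻¹ * y) '' (X.π '' K)) :=
      (hK.image X.π_cont).image (continuous_const.mul continuous_id)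
    filter_upwards [hesc _ hK'] with s hs hmem
    apply hs
    refine ⟨X.π g * D.n s, ⟨_, hmem, X.π_mk' _ _⟩, ?_⟩
    simp
  · intro f hf
    have hfq : MDifferentiable 𝓘(ℂ, E) 𝓘(ℂ, ℂ) fun g => f (F.q g) :=
      (mdifferentiable_iff_differentiable.mpr hf).comp hq
    have h1 : MDifferentiable 𝓘(ℂ, E) 𝓘(ℂ, E) fun g =>
        X.c (D.e (f (F.q g))) * (g * (X.σ (X.π g))⁻¹) *
          X.σ (X.π g * D.n (D.φ (X.t g) - D.φ (D.e (f (F.q g)) * X.t g))) := by
      refine mdiff_mul (mdiff_mul (hce.comp hfq) hbase) (hσ.comp (mdiff_mul hπ (hn.comp ?_)))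
      have h2 : MDifferentiable 𝓘(ℂ, E) 𝓘(ℂ, ℂ) fun g =>
          (D.φ (X.t g), D.φ (D.e (f (F.q g)) * X.t g)).1 -
          (D.φ (X.t g), D.φ (D.e (f (F.q g)) * X.t g)).2 := by
        exact hφt.sub (hφ _ hfq)
      exact h2
    convert h1 using 2 with g
    rw [hbase_eq, ← X.c_mul]
    rfl
  · intro h hh
    have hhq : MDifferentiable 𝓘(ℂ, E) 𝓘(ℂ, ℂ) fun g => h (D.j (X.t g)) :=
      (mdifferentiable_iff_differentiable.mpr hh).comp hj
    have h1 : MDifferentiable 𝓘(ℂ, E) 𝓘(ℂ, E) fun g =>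
        (g * (X.σ (X.π g))⁻¹) * X.σ (X.π g * D.n (h (D.j (X.t g)))) :=
      mdiff_mul hbase (hσ.comp (mdiff_mul hπ (hn.comp hhq)))
    convert h1 using 2 with g
    rw [hbase_eq]
    rfl
  · intro d hd d' hd' hne
    have hSclosed : IsClosed {τ : G | F.q (τ * d) = F.q (τ * d')} :=
      isClosed_eq (F.q_cont.comp (continuous_mul_const d)) (F.q_cont.comp (continuous_mul_const d'))
    have hnat : NullSingletonClass κ := by
      rw [hκ]; exact Measure.IsHaarMeasure.nullSingletonClass _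
    have e1 : μ {τ : G | F.q (τ * d) = F.q (τ * d')} =
        (ν.prod κ) (X.homeo.symm ⁻¹' {τ : G | F.q (τ * d) = F.q (τ * d')}) := by
      exact X.homeo.symm.measurableEmbedding.map_apply (ν.prod κ) _
    rw [e1]
    apply Measure.measure_prod_null_of_ae_null
      (hSclosed.preimage X.homeo.symm.continuous).measurableSet
    refine Eventually.of_forall fun y => ?_
    show κ _ = 0
    apply Set.Countable.measure_zero
    refine (hcount (X.t (X.σ y * d)) (X.t (X.σ y * d')) ((X.π d)⁻¹ * X.π d') ?_).mono ?_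
    · by_contra hcon
      push Not at hcon
      obtain ⟨hb, hk⟩ := hcon
      apply hne
      have hk' : X.π d = X.π d' := inv_mul_eq_one.mp hk
      have h1 : X.σ y * d = X.σ y * d' := by
        rw [← X.eq_mk' (X.σ y * d), ← X.eq_mk' (X.σ y * d'), hb, X.π_mul, X.π_mul, hk']
      exact mul_left_cancel h1
    · intro z hz
      have hz' : F.q (X.point y z * d) = F.q (X.point y z * d') := hz
      rw [X.point_mul, X.point_mul] at hz'
      have hz2 : D.ι (y * X.π d * D.n (D.φ (z * X.t (X.σ y * d)))) =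
          D.ι (y * X.π d' * D.n (D.φ (z * X.t (X.σ y * d')))) := by
        have a1 : ∀ (y' : Y) (z' : C), F.q (X.point y' z') = D.ι (y' * D.n (D.φ z')) := by
          intro y' z'
          show D.ι (X.π (X.point y' z') * D.n (D.φ (X.t (X.point y' z')))) = _
          rw [X.π_mk', X.t_mk']
        rw [a1, a1] at hz'
        exact hz'
      have hz3 := hιc.injective hz2
      show D.n (D.φ (z * X.t (X.σ y * d)) - D.φ (z * X.t (X.σ y * d'))) = (X.π d)⁻¹ * X.π d'
      rw [sub_eq_add_neg, D.n_add, D.n_neg]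
      rw [mul_assoc, mul_assoc] at hz3
      have hz4 := mul_left_cancel hz3
      rw [eq_inv_mul_iff_mul_eq, ← mul_assoc, hz4, mul_inv_cancel_right]

end Pool.Agent.Work.MP_970e75_an.Gen
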