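import Pool.Agent.Work.MP_970e75_an.Gen.TwoFlows

/-!
Passage from an open subgroup to the whole group.
-/

set_option linter.unusedSectionVars false

namespace Pool.Agent.Work.MP_970e75_an.Gen

open Filter Topology Set
open scoped Manifold ContDiff

variable {E : Type*} [NormedAddCommGroup E] [NormedSpace ℂ E] {G₀ G : Type*}
  [TopologicalSpace G₀] [ChartedSpace E G₀] [Group G₀] [LieGroup 𝓘(ℂ, E) ω G₀]
  [TopologicalSpace G] [ChartedSpace E G] [Group G] [LieGroup 𝓘(ℂ, E) ω G]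

theorem isTame_of_open (j : G₀ →* G) (hj : IsOpenEmbedding j)
    (hj1 : MDifferentiable 𝓘(ℂ, E) 𝓘(ℂ, E) j) (k : G → G₀) (hk : ∀ g, k (j g) = g)
    (hk1 : MDifferentiableOn 𝓘(ℂ, E) 𝓘(ℂ, E) k (range j))
    (h : ∀ Γ₀ : Subgroup G₀, DiscreteTopology Γ₀ → IsTame E (Γ₀ : Set G₀))
    (Γ : Subgroup G) [DiscreteTopology Γ] : IsTame E (Γ : Set G) := by
  classical
  have hTG : IsTopologicalGroup G := topologicalGroup_of_lieGroup 𝓘(ℂ, E) ω
  intro ρ hρ ζ
  have hopen : IsOpen (j.range : Set G) := by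
    rw [MonoidHom.coe_range]; exact hj.isOpen_range
  have hclosed : IsClosed (j.range : Set G) := Subgroup.isClosed_of_isOpen _ hopen
  have hcl : IsClosedEmbedding j := ⟨hj.isEmbedding, by
    rw [← MonoidHom.coe_range]; exact hclosed⟩
  set Γ₀ : Subgroup G₀ := Γ.comap j with hΓ₀
  have hdisc : DiscreteTopology Γ₀ := by
    refine DiscreteTopology.of_continuous_injective (β := Γ)
      (f := fun γ => ⟨j γ.1, γ.2⟩) ?_ ?_
    · exact (hj.continuous.comp continuous_subtype_val).subtype_mk _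
    · intro a b hab
      exact Subtype.ext (hj.injective (congrArg Subtype.val hab))
  -- representatives
  let rep : G ⧸ j.range → G := fun q =>
    if hq : ∃ γ ∈ Γ, (QuotientGroup.mk γ : G ⧸ j.range) = q then hq.choose else q.out
  have hrep : ∀ q, (QuotientGroup.mk (rep q) : G ⧸ j.range) = q := by
    intro q
    by_cases hq : ∃ γ ∈ Γ, (QuotientGroup.mk γ : G ⧸ j.range) = q
    · simp only [rep, dif_pos hq]
      exact hq.choose_spec.2
    · simp only [rep, dif_neg hq]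
      exact QuotientGroup.out_eq' q
  have hrepΓ : ∀ γ ∈ Γ, rep (QuotientGroup.mk γ) ∈ Γ := by
    intro γ hγ
    have hq : ∃ γ' ∈ Γ, (QuotientGroup.mk γ' : G ⧸ j.range) = QuotientGroup.mk γ := ⟨γ, hγ, rfl⟩
    simp only [rep, dif_pos hq]
    exact hq.choose_spec.1
  have hmem : ∀ x : G, (rep (QuotientGroup.mk x))⁻¹ * x ∈ j.range := by
    intro x
    rw [← QuotientGroup.eq]
    exact hrep _
  -- coordinates
  let co : G → G₀ := fun x => k ((rep (QuotientGroup.mk x))⁻¹ * x)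
  have hco : ∀ x : G, j (co x) = (rep (QuotientGroup.mk x))⁻¹ * x := by
    intro x
    obtain ⟨y, hy⟩ := hmem x
    show j (k ((rep (QuotientGroup.mk x))⁻¹ * x)) = _
    rw [← hy, hk]
  have hx : ∀ x : G, rep (QuotientGroup.mk x) * j (co x) = x := by
    intro x
    rw [hco, mul_inv_cancel_left]
  have hq : ∀ (q : G ⧸ j.range) (y : G₀), (QuotientGroup.mk (rep q * j y) : G ⧸ j.range) = q := by
    intro q y
    have hy : j y ∈ j.range := MonoidHom.mem_range.mpr ⟨y, rfl⟩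
    rw [QuotientGroup.mk_mul_of_mem _ hy]
    exact hrep q
  have hcoq : ∀ (q : G ⧸ j.range) (y : G₀), co (rep q * j y) = y := by
    intro q y
    apply hj.injective
    rw [hco, hq, inv_mul_cancel_left]
  -- the automorphisms of the cosets
  have hφ : ∀ q : G ⧸ j.range, ∃ φ : G₀ ≃ G₀, IsAutomorphism E φ ∧
      ∀ y ∈ (Γ₀ : Set G₀), ζ (rep q * j y) ≤ ρ (rep q * j (φ y)) := by
    intro q
    refine h Γ₀ hdisc (fun y => ρ (rep q * j y)) ⟨?_, ?_, ?_⟩ (fun y => ζ (rep q * j y))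
    · exact hρ.1.comp (continuous_const.mul hj.continuous)
    · intro y; exact hρ.2.1 _
    · intro r
      have hK : IsCompact ((fun x => (rep q)⁻¹ * x) '' {x | ρ x ≤ r}) :=
        (hρ.2.2 r).image (continuous_const.mul continuous_id)
      have h2 := hcl.isCompact_preimage hK
      convert h2 using 1
      ext y
      constructor
      · intro hy
        exact ⟨rep q * j y, hy, by simp⟩
      · rintro ⟨x, hx1, hx2⟩
        have : x = rep q * j y := by
          simp only at hx2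
          rw [← hx2, mul_inv_cancel_left]
        show ρ (rep q * j y) ≤ r
        rw [← this]; exact hx1
  choose φ hφa hφζ using hφ
  let Φ : (G ⧸ j.range → (G₀ ≃ G₀)) → G → G := fun ψ x =>
    rep (QuotientGroup.mk x) * j (ψ (QuotientGroup.mk x) (co x))
  have hΦmk : ∀ ψ x, (QuotientGroup.mk (Φ ψ x) : G ⧸ j.range) = QuotientGroup.mk x :=
    fun ψ x => hq _ _
  have hΦco : ∀ ψ x, co (Φ ψ x) = ψ (QuotientGroup.mk x) (co x) := fun ψ x => hcoq _ _
  have hhol : ∀ ψ : G ⧸ j.range → (G₀ ≃ G₀), (∀ q, MDifferentiable 𝓘(ℂ, E) 𝓘(ℂ, E) (ψ q)) →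
      MDifferentiable 𝓘(ℂ, E) 𝓘(ℂ, E) (Φ ψ) := by
    intro ψ hψ x₀
    set q₀ : G ⧸ j.range := QuotientGroup.mk x₀ with hq₀
    have hev : ∀ᶠ x in 𝓝 x₀, (QuotientGroup.mk x : G ⧸ j.range) = q₀ := by
      have hset : {x : G | x₀⁻¹ * x ∈ (j.range : Set G)} ∈ 𝓝 x₀ := by
        apply (hopen.preimage (continuous_const.mul continuous_id)).mem_nhds
        show x₀⁻¹ * x₀ ∈ (j.range : Set G)
        rw [inv_mul_cancel]
        exact j.range.one_mem
      filter_upwards [hset] with x hx'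
      exact (QuotientGroup.eq.mpr hx').symm
    have hk2 : MDifferentiableAt 𝓘(ℂ, E) 𝓘(ℂ, E) k ((rep q₀)⁻¹ * x₀) := by
      have hm := hmem x₀
      rw [MonoidHom.mem_range] at hm
      exact (hk1 _ hm).mdifferentiableAt (hj.isOpen_range.mem_nhds hm)
    have hl : MDifferentiable 𝓘(ℂ, E) 𝓘(ℂ, E) fun x : G => (rep q₀)⁻¹ * x :=
      mdiff_mul mdifferentiable_const mdifferentiable_id
    have h1 : MDifferentiableAt 𝓘(ℂ, E) 𝓘(ℂ, E) (fun x : G => k ((rep q₀)⁻¹ * x)) x₀ :=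
      hk2.comp x₀ (hl x₀)
    have hout : MDifferentiable 𝓘(ℂ, E) 𝓘(ℂ, E) fun y : G₀ => rep q₀ * j (ψ q₀ y) :=
      mdiff_mul mdifferentiable_const (hj1.comp (hψ q₀))
    have h2 : MDifferentiableAt 𝓘(ℂ, E) 𝓘(ℂ, E)
        (fun x : G => rep q₀ * j (ψ q₀ (k ((rep q₀)⁻¹ * x)))) x₀ :=
      (hout _).comp x₀ h1
    refine h2.congr_of_eventuallyEq ?_
    filter_upwards [hev] with x hx'
    show rep (QuotientGroup.mk x) * j (ψ (QuotientGroup.mk x) (co x)) = _
    simp only [co, hx']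
  refine ⟨⟨Φ φ, Φ (fun q => (φ q).symm), ?_, ?_⟩, ⟨hhol φ fun q => (hφa q).1,
    hhol (fun q => (φ q).symm) fun q => (hφa q).2⟩, ?_⟩
  · intro x
    show rep (QuotientGroup.mk (Φ φ x)) * j ((φ (QuotientGroup.mk (Φ φ x))).symm (co (Φ φ x))) = x
    rw [hΦmk, hΦco, Equiv.symm_apply_apply, hx]
  · intro x
    have e1 := hΦmk (fun q => (φ q).symm) x
    have e2 := hΦco (fun q => (φ q).symm) x
    have e3 : ∀ z : G, Φ φ z = rep (QuotientGroup.mk z) * j (φ (QuotientGroup.mk z) (co z)) :=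
      fun z => rfl
    rw [e3, e1, e2, Equiv.apply_symm_apply, hx]
  · intro x hxΓ
    have h1 : co x ∈ (Γ₀ : Set G₀) := by
      show j (co x) ∈ Γ
      rw [hco]
      exact Γ.mul_mem (Γ.inv_mem (hrepΓ x hxΓ)) hxΓ
    have h2 := hφζ (QuotientGroup.mk x) (co x) h1
    rw [hx] at h2
    exact h2

end Pool.Agent.Work.MP_970e75_an.Gen
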