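import Pool.Agent.Work.MP_970e75_an.Gen.Defs

/-!
Two kinds of Stein complex Lie groups. Every connected Stein complex Lie group `G` of dimension at
least two is of one of these kinds, by the following classical facts (not used in the Lean proofs).

* If `G` is not solvable, let `K` be a maximal compact subgroup (not commutative) and let `H` be
  its complexification, a closed reductive subgroup of `G` which is linear algebraic
  (Matsushima-Morimoto). The quotient `Z = G/H` is a contractible Stein manifold, so the principal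
  `H`-bundle `G → Z` is holomorphically trivial (Grauert), i.e. `G` is biholomorphic to `Z × H`,
  compatibly with right multiplication by `H`. With a closed embedding of `Z` in `ℂ^l` and an
  embedding of `H` as closed subgroup of `SL_N(ℂ)` one gets `IsKindOne`: take any copy of `sl₂(ℂ)`
  in the Lie algebra of `H`. (When `G` is a closed subgroup of `SL_N(ℂ)` one can take `ι`
  constant and `ψ` the inclusion.)
* If `G` is solvable, there is a closed normal subgroup `C` isomorphic to `ℂ` or `ℂ^*` such that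
  `Y = G/C` is a Stein group and the bundle `G → Y` is holomorphically trivial, so that
  `IsKindTwo` holds: a one-dimensional torus `C = ℂ^*` of the centre if there is one; otherwise a
  line `C = ℂ` of the centre if the centre has positive dimension; otherwise `C = exp (ℂ X)`,
  where `X` spans a line of the centre of `[Lie G, Lie G]` stable under `G`.
-/

namespace Pool.Agent.Work.MP_970e75_an.Gen

open scoped Manifold ContDiff Topology

section

variable (E : Type) [NormedAddCommGroup E] [NormedSpace ℂ E]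
  {G : Type} [TopologicalSpace G] [ChartedSpace E G]

/-- A holomorphic one-parameter subgroup `x : ℂ → G` of the complex Lie group `G` (modelled
on `E`). -/
def IsOneParam [Group G] (x : ℂ → G) : Prop :=
  MDifferentiable 𝓘(ℂ, ℂ) 𝓘(ℂ, E) x ∧ ∀ s t, x (s + t) = x s * x t

end

/-- The matrix entries of `g ∈ SL_N(ℂ)`, as a point of `ℂ^(N×N)`. -/
def matrixEntries {N : ℕ} (g : Matrix.SpecialLinearGroup (Fin N) ℂ) : Fin N → Fin N → ℂ :=
  fun i j => (g : Matrix (Fin N) (Fin N) ℂ) i j

/-- Kind one: `G` has a holomorphic closed embedding `(ι, ψ)` in `ℂ^l × SL_N(ℂ)`, and two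
one-parameter subgroups `x`, `y`, such that right multiplication by `x s` and by `y s` does not
change `ι`, and multiplies `ψ` on the right by `exp (s X)` and by `exp (s Y)`, where `(X, H, Y)` is
an `sl₂`-triple of `N × N` matrices. -/
def IsKindOne (E : Type) [NormedAddCommGroup E] [NormedSpace ℂ E] (G : Type)
    [TopologicalSpace G] [ChartedSpace E G] [Group G] : Prop :=
  ∃ (l N : ℕ) (ι : G → Fin l → ℂ) (ψ : G → Matrix.SpecialLinearGroup (Fin N) ℂ)
    (X H Y : Matrix (Fin N) (Fin N) ℂ) (x y : ℂ → G),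
    MDifferentiable 𝓘(ℂ, E) 𝓘(ℂ, Fin l → ℂ) ι ∧
    MDifferentiable 𝓘(ℂ, E) 𝓘(ℂ, Fin N → Fin N → ℂ) (fun g => matrixEntries (ψ g)) ∧
    Topology.IsClosedEmbedding (fun g => (ι g, matrixEntries (ψ g))) ∧
    X ≠ 0 ∧ H * X - X * H = (2 : ℂ) • X ∧ H * Y - Y * H = -((2 : ℂ) • Y) ∧
    X * Y - Y * X = H ∧ IsOneParam E x ∧ IsOneParam E y ∧
    (∀ g s, ι (g * x s) = ι g ∧ (ψ (g * x s) : Matrix (Fin N) (Fin N) ℂ) =
      (ψ g : Matrix (Fin N) (Fin N) ℂ) * NormedSpace.exp (s • X)) ∧
    (∀ g s, ι (g * y s) = ι g ∧ (ψ (g * y s) : Matrix (Fin N) (Fin N) ℂ) =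
      (ψ g : Matrix (Fin N) (Fin N) ℂ) * NormedSpace.exp (s • Y))

/-- `G` is an extension of `Y` by the commutative group `C = ℂ / {s | T s = T 0}`, trivial as a
holomorphic bundle. Here `T` is the identity of `ℂ`, and then `C = ℂ`, or the exponential function,
and then `C` is isomorphic to `ℂ^*` via `T`. The projection is the homomorphism `π`, with
holomorphic section `σ`, the subgroup `C` is the image of `c : ℂ → G`, and `t` is the corresponding
fibre coordinate: `g = c(s) σ(π(g))` if and only if `T(s) = t(g)`. -/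
structure IsTrivialExtension (T : ℂ → ℂ) (E E' : Type) [NormedAddCommGroup E] [NormedSpace ℂ E]
    [NormedAddCommGroup E'] [NormedSpace ℂ E'] {G Y : Type} [TopologicalSpace G]
    [ChartedSpace E G] [Group G] [TopologicalSpace Y] [ChartedSpace E' Y] [Group Y]
    (π : G → Y) (σ : Y → G) (c : ℂ → G) (t : G → ℂ) : Prop where
  π_hol : MDifferentiable 𝓘(ℂ, E) 𝓘(ℂ, E') π
  σ_hol : MDifferentiable 𝓘(ℂ, E') 𝓘(ℂ, E) σ
  t_hol : MDifferentiable 𝓘(ℂ, E) 𝓘(ℂ, ℂ) t
  c_oneParam : IsOneParam E c
  π_mul : ∀ g h, π (g * h) = π g * π h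
  π_mk : ∀ s y, π (c s * σ y) = y
  t_iff : ∀ g s, c s * σ (π g) = g ↔ T s = t g
  t_surj : ∀ g, ∃ s, T s = t g

/-- Kind two: `G` is an extension, trivial as a holomorphic bundle, of a Stein complex Lie group
`Y` by `ℂ` or by `ℂ^*`, where `Y` is not discrete (it has a nontrivial holomorphic one-parameter
subgroup). -/
def IsKindTwo (E : Type) [NormedAddCommGroup E] [NormedSpace ℂ E] (G : Type)
    [TopologicalSpace G] [ChartedSpace E G] [Group G] : Prop :=
  ∃ (E' Y : Type) (_ : NormedAddCommGroup E') (_ : NormedSpace ℂ E') (_ : TopologicalSpace Y)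
    (_ : ChartedSpace E' Y) (_ : Group Y) (_ : LieGroup 𝓘(ℂ, E') ω Y),
    IsStein E' Y ∧ (∃ n : ℂ → Y, IsOneParam E' n ∧ ∃ s, n s ≠ 1) ∧
    ∃ (T : ℂ → ℂ) (π : G → Y) (σ : Y → G) (c : ℂ → G) (t : G → ℂ),
      (T = id ∨ T = Complex.exp) ∧ IsTrivialExtension T E E' π σ c t

end Pool.Agent.Work.MP_970e75_an.Gen
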