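import Pool.Agent.Work.MP_970e75_an.Flow

/-!
Trivial bundle extensions of topological groups by commutative groups, and their right invariant
measures.
-/

set_option linter.unusedSectionVars false

namespace Pool.Agent.Work.MP_970e75_an.Gen

open Filter Topology Set MeasureTheory

/-- A group `G` which is an extension of `Y` by the commutative group `C`, with a global section
(`σ`) and the corresponding fibre coordinate `t`. -/
structure Ext (G Y C : Type*) [Group G] [TopologicalSpace G] [Group Y] [TopologicalSpace Y]
    [CommGroup C] [TopologicalSpace C] where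
  π : G → Y
  σ : Y → G
  c : C → G
  t : G → C
  π_mul : ∀ g h, π (g * h) = π g * π h
  c_mul : ∀ z w, c (z * w) = c z * c w
  π_cont : Continuous π
  σ_cont : Continuous σ
  c_cont : Continuous c
  t_cont : Continuous t
  eq_mk : ∀ g, c (t g) * σ (π g) = g
  t_mk : ∀ z y, t (c z * σ y) = z
  π_mk : ∀ z y, π (c z * σ y) = y

namespace Ext

variable {G Y C : Type*} [Group G] [TopologicalSpace G] [Group Y] [TopologicalSpace Y]
    [CommGroup C] [TopologicalSpace C] (X : Ext G Y C)

theorem c_one : X.c 1 = 1 := by
  have h := X.c_mul 1 1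
  rw [mul_one] at h
  exact (mul_eq_left.mp h.symm)

theorem π_one : X.π 1 = 1 := by
  have h := X.π_mul 1 1
  rw [mul_one] at h
  exact (mul_eq_left.mp h.symm)

theorem π_σ (y : Y) : X.π (X.σ y) = y := by
  have := X.π_mk 1 y
  rwa [X.c_one, one_mul] at this

theorem π_c (z : C) : X.π (X.c z) = 1 := by
  have h1 := X.π_mk z 1
  rw [X.π_mul, X.π_σ, mul_one] at h1
  exact h1

theorem t_c_mul (z : C) (g : G) : X.t (X.c z * g) = z * X.t g := by
  conv_lhs => rw [← X.eq_mk g, ← mul_assoc, ← X.c_mul, X.t_mk]

theorem π_c_mul (z : C) (g : G) : X.π (X.c z * g) = X.π g := by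
  rw [X.π_mul, X.π_c, one_mul]

/-- The point with given coordinates. -/
def point (y : Y) (z : C) : G := X.c z * X.σ y

theorem t_mk' (y : Y) (z : C) : X.t (X.point y z) = z := X.t_mk z y
theorem π_mk' (y : Y) (z : C) : X.π (X.point y z) = y := X.π_mk z y
theorem eq_mk' (g : G) : X.point (X.π g) (X.t g) = g := X.eq_mk g

/-- The coordinates of a product. -/
theorem point_mul (y : Y) (z : C) (g : G) :
    X.point y z * g = X.point (y * X.π g) (z * X.t (X.σ y * g)) := by
  have h1 : X.σ y * g = X.point (y * X.π g) (X.t (X.σ y * g)) := by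
    rw [← X.eq_mk' (X.σ y * g), X.π_mul, X.π_σ, X.t_mk']
  unfold point
  rw [mul_assoc, X.c_mul, mul_assoc]
  congr 1

variable [IsTopologicalGroup G]

/-- The coordinates as a homeomorphism. -/
def homeo : G ≃ₜ Y × C where
  toFun g := (X.π g, X.t g)
  invFun p := X.point p.1 p.2
  left_inv g := X.eq_mk' g
  right_inv p := by
    show (X.π (X.point p.1 p.2), X.t (X.point p.1 p.2)) = p
    rw [X.π_mk', X.t_mk']
  continuous_toFun := X.π_cont.prodMk X.t_cont
  continuous_invFun :=
    (X.c_cont.comp continuous_snd).mul (X.σ_cont.comp continuous_fst)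

@[simp] theorem homeo_apply (g : G) : X.homeo g = (X.π g, X.t g) := rfl
@[simp] theorem homeo_symm_apply (p : Y × C) : X.homeo.symm p = X.point p.1 p.2 := rfl

section Measure

variable [MeasurableSpace G] [BorelSpace G] [MeasurableSpace Y] [BorelSpace Y]
  [MeasurableSpace C] [BorelSpace C] [SecondCountableTopology Y] [SecondCountableTopology C]
  [IsTopologicalGroup Y] [IsTopologicalGroup C]
  (ν : Measure Y) (κ : Measure C)

/-- The product measure in coordinates. -/
noncomputable def measure : Measure G := (ν.prod κ).map X.homeo.symm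

theorem measurePreserving_symm : MeasurePreserving X.homeo.symm (ν.prod κ) (X.measure ν κ) :=
  ⟨X.homeo.symm.continuous.measurable, rfl⟩

theorem measurePreserving_homeo : MeasurePreserving X.homeo (X.measure ν κ) (ν.prod κ) := by
  refine ⟨X.homeo.continuous.measurable, ?_⟩
  unfold measure
  rw [Measure.map_map X.homeo.continuous.measurable X.homeo.symm.continuous.measurable]
  have : (X.homeo ∘ X.homeo.symm) = id := by
    funext p; exact X.homeo.apply_symm_apply p
  rw [this, Measure.map_id]

variable [SFinite ν] [SFinite κ]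

instance : SFinite (X.measure ν κ) := by unfold measure; infer_instance

instance [ν.IsOpenPosMeasure] [κ.IsOpenPosMeasure] : (X.measure ν κ).IsOpenPosMeasure :=
  X.homeo.symm.continuous.isOpenPosMeasure_map X.homeo.symm.surjective

instance [IsFiniteMeasureOnCompacts ν] [IsFiniteMeasureOnCompacts κ] :
    IsFiniteMeasureOnCompacts (X.measure ν κ) := by
  constructor
  intro K hK
  have h1 : MeasurableEmbedding X.homeo.symm := X.homeo.symm.measurableEmbedding
  unfold measure
  rw [h1.map_apply]
  have h2 : X.homeo.symm ⁻¹' K = X.homeo '' K := by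
    rw [X.homeo.image_eq_preimage_symm]
  rw [h2]
  exact (hK.image X.homeo.continuous).measure_lt_top

/-- The measure is right invariant. -/
theorem isMulRightInvariant [ν.IsMulRightInvariant] [κ.IsMulRightInvariant] :
    (X.measure ν κ).IsMulRightInvariant := by
  constructor
  intro g
  have hm : MeasurePreserving (fun p : Y × C => (p.1 * X.π g, p.2 * X.t (X.σ p.1 * g)))
      (ν.prod κ) (ν.prod κ) := by
    apply MeasurePreserving.skew_product (f := fun y : Y => y * X.π g)
      (g := fun (y : Y) (z : C) => z * X.t (X.σ y * g)) (measurePreserving_mul_right ν _)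
    · apply Continuous.measurable
      show Continuous fun p : Y × C => p.2 * X.t (X.σ p.1 * g)
      exact continuous_snd.mul (X.t_cont.comp
        ((X.σ_cont.comp continuous_fst).mul continuous_const))
    · exact Eventually.of_forall fun y => map_mul_right_eq_self κ _
  have h1 := (X.measurePreserving_symm ν κ).comp (hm.comp (X.measurePreserving_homeo ν κ))
  have h2 : (X.homeo.symm ∘ (fun p : Y × C => (p.1 * X.π g, p.2 * X.t (X.σ p.1 * g))) ∘
      X.homeo) = fun x => x * g := by
    funext x
    show X.point (X.π x * X.π g) (X.t x * X.t (X.σ (X.π x) * g)) = x * g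
    rw [← X.point_mul, X.eq_mk']
  rw [h2] at h1
  exact h1.map_eq

end Measure

end Ext

end Pool.Agent.Work.MP_970e75_an.Gen
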