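import Pool.Agent.Work.MP_970e75_an.Gen.Ext

/-!
The flow data attached to a trivial bundle extension.
-/

set_option linter.unusedSectionVars false

namespace Pool.Agent.Work.MP_970e75_an.Gen

open Filter Topology Set MeasureTheory

/-- Auxiliary data for the flows on an extension. -/
structure ExtFlow (Y C W W' : Type*) [Group Y] [TopologicalSpace Y]
    [CommGroup C] [TopologicalSpace C] [NormedAddCommGroup W] [NormedAddCommGroup W'] where
  ι : Y → W
  n : ℂ → Y
  φ : C → ℂ
  e : ℂ → C
  j : C → W'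
  ι_cont : Continuous ι
  n_cont : Continuous n
  φ_cont : Continuous φ
  e_cont : Continuous e
  j_cont : Continuous j
  n_add : ∀ s u, n (s + u) = n s * n u
  e_add : ∀ s u, e (s + u) = e s * e u
  ι_compact : ∀ R : ℝ, IsCompact {y | ‖ι y‖ ≤ R}
  j_compact : ∀ R : ℝ, IsCompact {z | ‖j z‖ ≤ R}
  escape : ∀ M : ℝ, ∃ s : ℂ, ∀ z : C, ‖j z‖ ≤ M → M < ‖j (e s * z)‖

namespace ExtFlow

variable {G Y C W W' : Type*} [Group G] [TopologicalSpace G] [Group Y] [TopologicalSpace Y]
    [CommGroup C] [TopologicalSpace C] [NormedAddCommGroup W] [NormedAddCommGroup W']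
    (X : Ext G Y C) (D : ExtFlow Y C W W')

theorem n_zero : D.n 0 = 1 := by
  have h := D.n_add 0 0
  rw [add_zero] at h
  exact (mul_eq_left.mp h.symm)

theorem e_zero : D.e 0 = 1 := by
  have h := D.e_add 0 0
  rw [add_zero] at h
  exact (mul_eq_left.mp h.symm)

theorem n_neg (s : ℂ) : D.n (-s) = (D.n s)⁻¹ := by
  rw [eq_inv_iff_mul_eq_one, ← D.n_add, neg_add_cancel, D.n_zero]

variable [IsTopologicalGroup G] [MeasurableSpace G] [BorelSpace G] [MeasurableSpace Y]
  [BorelSpace Y] [MeasurableSpace C] [BorelSpace C] [SecondCountableTopology Y]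
  [SecondCountableTopology C] [IsTopologicalGroup Y] [IsTopologicalGroup C]
  (ν : Measure Y) (κ : Measure C) [SFinite ν] [SFinite κ]

/-- The flow in coordinates. -/
def coordFlow (s : ℂ) (p : Y × C) : Y × C :=
  (p.1 * D.n (D.φ p.2 - D.φ (D.e s * p.2)), D.e s * p.2)

theorem measurePreserving_coordFlow [ν.IsMulRightInvariant] [κ.IsMulRightInvariant] (s : ℂ) :
    MeasurePreserving (D.coordFlow s) (ν.prod κ) (ν.prod κ) := by
  have hm : MeasurePreserving (fun p : C × Y => (D.e s * p.1,
      p.2 * D.n (D.φ p.1 - D.φ (D.e s * p.1)))) (κ.prod ν) (κ.prod ν) := by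
    apply MeasurePreserving.skew_product (f := fun z : C => D.e s * z)
      (g := fun (z : C) (y : Y) => y * D.n (D.φ z - D.φ (D.e s * z)))
    · have h1 := measurePreserving_mul_right κ (D.e s)
      have h2 : (fun z : C => D.e s * z) = fun z => z * D.e s := by
        funext z; rw [mul_comm]
      rw [h2]
      exact h1
    · apply Continuous.measurable
      show Continuous fun p : C × Y => p.2 * D.n (D.φ p.1 - D.φ (D.e s * p.1))
      exact continuous_snd.mul (D.n_cont.comp ((D.φ_cont.comp continuous_fst).sub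
        (D.φ_cont.comp (continuous_const.mul continuous_fst))))
    · exact Eventually.of_forall fun z => map_mul_right_eq_self ν _
  have h1 : MeasurePreserving (Prod.swap : Y × C → C × Y) (ν.prod κ) (κ.prod ν) :=
    Measure.measurePreserving_swap
  have h2 : MeasurePreserving (Prod.swap : C × Y → Y × C) (κ.prod ν) (ν.prod κ) :=
    Measure.measurePreserving_swap
  exact h2.comp (hm.comp h1)

/-- The flow data. -/
noncomputable def flow [ν.IsMulRightInvariant] [κ.IsMulRightInvariant] :
    FlowData G (X.measure ν κ) W where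
  q g := D.ι (X.π g * D.n (D.φ (X.t g)))
  p g := ‖D.j (X.t g)‖
  θ s g := X.point (X.π g * D.n (D.φ (X.t g) - D.φ (D.e s * X.t g))) (D.e s * X.t g)
  q_cont := D.ι_cont.comp (X.π_cont.mul (D.n_cont.comp (D.φ_cont.comp X.t_cont)))
  p_cont := (D.j_cont.comp X.t_cont).norm
  θ_cont := by
    have ht : Continuous fun x : ℂ × G => X.t x.2 := X.t_cont.comp continuous_snd
    have hπ : Continuous fun x : ℂ × G => X.π x.2 := X.π_cont.comp continuous_snd
    have he : Continuous fun x : ℂ × G => D.e x.1 * X.t x.2 :=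
      (D.e_cont.comp continuous_fst).mul ht
    have h1 : Continuous fun x : ℂ × G =>
        (X.π x.2 * D.n (D.φ (X.t x.2) - D.φ (D.e x.1 * X.t x.2)), D.e x.1 * X.t x.2) :=
      (hπ.mul (D.n_cont.comp ((D.φ_cont.comp ht).sub (D.φ_cont.comp he)))).prodMk he
    exact X.homeo.symm.continuous.comp h1
  θ_zero g := by
    rw [D.e_zero, one_mul, sub_self, D.n_zero, mul_one, X.eq_mk']
  θ_add s u g := by
    simp only [X.π_mk', X.t_mk']
    rw [D.e_add, mul_assoc (X.π g), ← D.n_add, mul_assoc (D.e s)]
    congr 3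
    ring
  θ_meas s := by
    have h := (X.measurePreserving_symm ν κ).comp
      ((D.measurePreserving_coordFlow ν κ s).comp (X.measurePreserving_homeo ν κ))
    exact h
  q_inv s g := by
    simp only [X.π_mk', X.t_mk']
    rw [mul_assoc, ← D.n_add, sub_add_cancel]
  compact R := by
    have hK := (D.ι_compact R).prod (D.j_compact R)
    have hc : Continuous fun x : Y × C => X.point (x.1 * D.n (-D.φ x.2)) x.2 := by
      have h1 : Continuous fun x : Y × C => (x.1 * D.n (-D.φ x.2), x.2) :=
        (continuous_fst.mul (D.n_cont.comp (D.φ_cont.comp continuous_snd).neg)).prodMk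
          continuous_snd
      exact X.homeo.symm.continuous.comp h1
    convert hK.image hc using 1
    ext g
    constructor
    · rintro ⟨h1, h2⟩
      refine ⟨(X.π g * D.n (D.φ (X.t g)), X.t g), ⟨h1, h2⟩, ?_⟩
      show X.point (X.π g * D.n (D.φ (X.t g)) * D.n (-D.φ (X.t g))) (X.t g) = g
      rw [mul_assoc, ← D.n_add, add_neg_cancel, D.n_zero, mul_one, X.eq_mk']
    · rintro ⟨⟨y, z⟩, ⟨h1, h2⟩, rfl⟩
      constructor
      · show ‖D.ι (X.π (X.point (y * D.n (-D.φ z)) z) *
          D.n (D.φ (X.t (X.point (y * D.n (-D.φ z)) z))))‖ ≤ R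
        rw [X.π_mk', X.t_mk', mul_assoc, ← D.n_add, neg_add_cancel, D.n_zero, mul_one]
        exact h1
      · show ‖D.j (X.t (X.point (y * D.n (-D.φ z)) z))‖ ≤ R
        rw [X.t_mk']
        exact h2
  escape M := by
    obtain ⟨s, hs⟩ := D.escape M
    refine ⟨0, s, ?_⟩
    intro g h1 h2
    simp only [X.t_mk'] at h2
    exact absurd h2 (not_le.mpr (hs _ h1))

end ExtFlow

end Pool.Agent.Work.MP_970e75_an.Gen
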