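import Pool.Agent.Work.MP_970e75_an.Gen.OneParam
import Pool.Agent.Work.MP_970e75_an.Gen.ExtTame

/-!
Discrete subgroups of trivial bundle extensions by `ℂ` and by `ℂ^*` are tame.
-/

set_option linter.unusedSectionVars false

namespace Pool.Agent.Work.MP_970e75_an.Gen

open Filter Topology Set MeasureTheory
open scoped Manifold ContDiff

variable {E E' : Type*} [NormedAddCommGroup E] [NormedSpace ℂ E] [NormedAddCommGroup E']
  [NormedSpace ℂ E'] {G Y : Type*}
  [TopologicalSpace G] [ChartedSpace E G] [Group G] [LieGroup 𝓘(ℂ, E) ω G]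
  [TopologicalSpace Y] [ChartedSpace E' Y] [Group Y] [LieGroup 𝓘(ℂ, E') ω Y]

/-- Extensions by the additive group. -/
theorem isTame_of_additive {W : Type*} [NormedAddCommGroup W] [NormedSpace ℂ W]
    [FiniteDimensional ℂ W] (π : G → Y) (σ : Y → G) (c : ℂ → G) (t : G → ℂ)
    (hπ : MDifferentiable 𝓘(ℂ, E) 𝓘(ℂ, E') π) (hσ : MDifferentiable 𝓘(ℂ, E') 𝓘(ℂ, E) σ)
    (hc : MDifferentiable 𝓘(ℂ, ℂ) 𝓘(ℂ, E) c) (ht : MDifferentiable 𝓘(ℂ, E) 𝓘(ℂ, ℂ) t)
    (hπm : ∀ g h, π (g * h) = π g * π h) (hcm : ∀ s u, c (s + u) = c s * c u)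
    (h1 : ∀ g, c (t g) * σ (π g) = g) (h2 : ∀ s y, t (c s * σ y) = s)
    (h3 : ∀ s y, π (c s * σ y) = y)
    (ι : Y → W) (hι : MDifferentiable 𝓘(ℂ, E') 𝓘(ℂ, W) ι) (hιc : IsClosedEmbedding ι)
    (n : ℂ → Y) (hn : MDifferentiable 𝓘(ℂ, ℂ) 𝓘(ℂ, E') n)
    (hna : ∀ s u, n (s + u) = n s * n u) (hne : ∃ s, n s ≠ 1)
    (Γ : Subgroup G) [DiscreteTopology Γ] : IsTame E (Γ : Set G) := by
  have hcW : CompleteSpace W := FiniteDimensional.complete ℂ W
  have hpW : ProperSpace W := FiniteDimensional.proper ℂ W
  let X : Ext G Y (Multiplicative ℂ) :=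
    { π := π
      σ := σ
      c := fun z => c z.toAdd
      t := fun g => Multiplicative.ofAdd (t g)
      π_mul := hπm
      c_mul := fun z w => hcm _ _
      π_cont := hπ.continuous
      σ_cont := hσ.continuous
      c_cont := hc.continuous.comp continuous_toAdd
      t_cont := continuous_ofAdd.comp ht.continuous
      eq_mk := h1
      t_mk := fun z y => by
        rw [h2]; rfl
      π_mk := fun z y => h3 _ _ }
  let D : ExtFlow Y (Multiplicative ℂ) W ℂ :=
    { ι := ι
      n := n
      φ := fun z => z.toAdd ^ 2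
      e := fun s => Multiplicative.ofAdd s
      j := fun z => z.toAdd
      ι_cont := hι.continuous
      n_cont := hn.continuous
      φ_cont := continuous_toAdd.pow 2
      e_cont := continuous_ofAdd
      j_cont := continuous_toAdd
      n_add := hna
      e_add := fun s u => rfl
      ι_compact := fun R => by
        have h := hιc.isCompact_preimage (isCompact_closedBall (0 : W) R)
        convert h using 1
        ext y; simp
      j_compact := fun R => by
        have h : IsCompact ((Multiplicative.ofAdd : ℂ → Multiplicative ℂ) ''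
            Metric.closedBall (0 : ℂ) R) :=
          (isCompact_closedBall (0 : ℂ) R).image continuous_ofAdd
        convert h using 1
        ext z
        constructor
        · intro hz
          exact ⟨z.toAdd, by simpa using hz, rfl⟩
        · rintro ⟨w, hw, rfl⟩
          simpa using hw
      escape := fun M => by
        refine ⟨((2 * |M| + 1 : ℝ) : ℂ), ?_⟩
        intro z hz
        have h4 : ‖(((2 * |M| + 1 : ℝ) : ℂ))‖ = 2 * |M| + 1 := by
          rw [Complex.norm_real, Real.norm_eq_abs, abs_of_pos (by positivity)]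
        have h5 : ‖(((2 * |M| + 1 : ℝ) : ℂ))‖ ≤ ‖(((2 * |M| + 1 : ℝ) : ℂ)) + z.toAdd‖ +
            ‖z.toAdd‖ := by
          have := norm_sub_le ((((2 * |M| + 1 : ℝ) : ℂ)) + z.toAdd) z.toAdd
          rwa [add_sub_cancel_right] at this
        show M < ‖(((2 * |M| + 1 : ℝ) : ℂ)) + z.toAdd‖
        have h6 := le_abs_self M
        linarith }
  obtain ⟨l, hl, hl2⟩ := exists_filter hn hna hne hι hιc.injective
  have hnb : (𝓝[≠] (1 : Multiplicative ℂ)).NeBot := by
    have : (𝓝[≠] (0 : ℂ)).NeBot := inferInstance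
    exact this
  refine isTame_of_ext X D hπ hσ hc hn hι hιc ?_ ht ?_ l hl2 Γ
  · intro a ha
    show MDifferentiable 𝓘(ℂ, E) 𝓘(ℂ, ℂ) fun g => (a g + t g) ^ 2
    have h4 : MDifferentiable 𝓘(ℂ, E) 𝓘(ℂ, ℂ) fun g => (a g + t g) := ha.add ht
    have h5 : Differentiable ℂ fun z : ℂ => z ^ 2 := by fun_prop
    exact (mdifferentiable_iff_differentiable.mpr h5).comp h4
  · intro b b' k hbk
    show {z : Multiplicative ℂ | n ((z.toAdd + b.toAdd) ^ 2 - (z.toAdd + b'.toAdd) ^ 2) =
      k}.Countable
    by_cases hb : b = b'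
    · have hk := hbk.resolve_left (fun h => h hb)
      have hn0 : n 0 = 1 := D.n_zero
      have : {z : Multiplicative ℂ | n ((z.toAdd + b.toAdd) ^ 2 - (z.toAdd + b'.toAdd) ^ 2) =
          k} = ∅ := by
        ext z
        simp only [hb, sub_self, mem_ofPred_eq, mem_empty_iff_false, iff_false]
        rw [hn0]
        exact fun h => hk h.symm
      rw [this]
      exact countable_empty
    · have h4 := countable_level hn hna hne hι hιc.injective k
      refine h4.preimage_of_injOn (f := fun z : Multiplicative ℂ =>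
        (z.toAdd + b.toAdd) ^ 2 - (z.toAdd + b'.toAdd) ^ 2) ?_
      intro z _ w _ hzw
      simp only at hzw
      have h5 : 2 * (z.toAdd - w.toAdd) * (b.toAdd - b'.toAdd) = 0 := by linear_combination hzw
      have h6 : b.toAdd - b'.toAdd ≠ 0 := by
        intro h
        exact hb (Multiplicative.toAdd.injective (sub_eq_zero.mp h))
      have h7 : z.toAdd - w.toAdd = 0 := by
        rcases mul_eq_zero.mp h5 with h | h
        · rcases mul_eq_zero.mp h with h | h
          · norm_num at h
          · exact h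
        · exact absurd h h6
      exact Multiplicative.toAdd.injective (sub_eq_zero.mp h7)

/-- Extensions by the multiplicative group. -/
theorem isTame_of_multiplicative {W : Type*} [NormedAddCommGroup W] [NormedSpace ℂ W]
    [FiniteDimensional ℂ W] (π : G → Y) (σ : Y → G) (c : ℂ → G) (t : G → ℂ)
    (hπ : MDifferentiable 𝓘(ℂ, E) 𝓘(ℂ, E') π) (hσ : MDifferentiable 𝓘(ℂ, E') 𝓘(ℂ, E) σ)
    (hc : MDifferentiable 𝓘(ℂ, ℂ) 𝓘(ℂ, E) c) (ht : MDifferentiable 𝓘(ℂ, E) 𝓘(ℂ, ℂ) t)
    (hπm : ∀ g h, π (g * h) = π g * π h) (hcm : ∀ s u, c (s + u) = c s * c u)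
    (h0 : ∀ g, t g ≠ 0)
    (h1 : ∀ g s, Complex.exp s = t g → c s * σ (π g) = g)
    (h2 : ∀ s y, t (c s * σ y) = Complex.exp s)
    (h3 : ∀ s y, π (c s * σ y) = y)
    (ι : Y → W) (hι : MDifferentiable 𝓘(ℂ, E') 𝓘(ℂ, W) ι) (hιc : IsClosedEmbedding ι)
    (n : ℂ → Y) (hn : MDifferentiable 𝓘(ℂ, ℂ) 𝓘(ℂ, E') n)
    (hna : ∀ s u, n (s + u) = n s * n u) (hne : ∃ s, n s ≠ 1)
    (Γ : Subgroup G) [DiscreteTopology Γ] : IsTame E (Γ : Set G) := by
  have hcW : CompleteSpace W := FiniteDimensional.complete ℂ W
  have hpW : ProperSpace W := FiniteDimensional.proper ℂ W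
  have hTG : IsTopologicalGroup G := topologicalGroup_of_lieGroup 𝓘(ℂ, E) ω
  have hper : ∀ s s', Complex.exp s = Complex.exp s' → c s = c s' := by
    intro s s' hss
    have a1 := h1 (c s * σ 1) s' (by rw [h2, hss])
    rw [h3] at a1
    exact (mul_right_cancel a1).symm
  let c' : ℂˣ → G := fun u => c (Complex.log u)
  have hc'e : ∀ s : ℂ, ∀ u : ℂˣ, Complex.exp s = u → c' u = c s := by
    intro s u hu
    apply hper
    rw [Complex.exp_log u.ne_zero, hu]
  have hc'm : ∀ u v : ℂˣ, c' (u * v) = c' u * c' v := by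
    intro u v
    have : c' (u * v) = c (Complex.log u + Complex.log v) := by
      apply hc'e
      rw [Complex.exp_add, Complex.exp_log u.ne_zero, Complex.exp_log v.ne_zero]
      rfl
    rw [this, hcm]
  have hc'c : Continuous c' := by
    rw [continuous_iff_continuousAt]
    intro u
    have h4 : c' = fun v : ℂˣ => c (Complex.log ((v : ℂ) * ((u⁻¹ : ℂˣ) : ℂ))) * c' u := by
      funext v
      have a1 : c' v = c' (v * u⁻¹) * c' u := by
        rw [← hc'm, inv_mul_cancel_right]
      rw [a1]
      rfl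
    rw [h4]
    apply ContinuousAt.mul _ continuousAt_const
    apply hc.continuous.continuousAt.comp
    have h5 : ContinuousAt (fun v : ℂˣ => (v : ℂ) * ((u⁻¹ : ℂˣ) : ℂ)) u :=
      (Units.continuous_val.mul continuous_const).continuousAt
    apply h5.clog
    rw [Units.mul_inv]
    exact Complex.one_mem_slitPlane
  let t' : G → ℂˣ := fun g => Units.mk0 (t g) (h0 g)
  have ht'c : Continuous t' := by
    rw [Units.continuous_iff]
    refine ⟨ht.continuous, ?_⟩
    have : Continuous fun g => (t g)⁻¹ := ht.continuous.inv₀ h0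
    convert this using 2
    rw [Units.val_inv_eq_inv_val]
    rfl
  let X : Ext G Y ℂˣ :=
    { π := π
      σ := σ
      c := c'
      t := t'
      π_mul := hπm
      c_mul := hc'm
      π_cont := hπ.continuous
      σ_cont := hσ.continuous
      c_cont := hc'c
      t_cont := ht'c
      eq_mk := fun g => h1 g _ (by
        show Complex.exp (Complex.log (t' g : ℂ)) = t g
        rw [Complex.exp_log (t' g).ne_zero]; rfl)
      t_mk := fun z y => by
        apply Units.ext
        show t (c (Complex.log z) * σ y) = z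
        rw [h2, Complex.exp_log z.ne_zero]
      π_mk := fun z y => h3 _ _ }
  have hexpc : Continuous fun s : ℂ => (Units.mk0 (Complex.exp s) (Complex.exp_ne_zero s)) := by
    rw [Units.continuous_iff]
    refine ⟨Complex.continuous_exp, ?_⟩
    have : Continuous fun s => (Complex.exp s)⁻¹ :=
      Complex.continuous_exp.inv₀ Complex.exp_ne_zero
    convert this using 2
    rw [Units.val_inv_eq_inv_val]
    rfl
  have hjc : Continuous fun z : ℂˣ => ((z : ℂ), ((z⁻¹ : ℂˣ) : ℂ)) :=
    Units.continuous_val.prodMk (Units.continuous_val.comp continuous_inv)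
  let D : ExtFlow Y ℂˣ W (ℂ × ℂ) :=
    { ι := ι
      n := n
      φ := fun z => (z : ℂ)
      e := fun s => Units.mk0 (Complex.exp s) (Complex.exp_ne_zero s)
      j := fun z => ((z : ℂ), ((z⁻¹ : ℂˣ) : ℂ))
      ι_cont := hι.continuous
      n_cont := hn.continuous
      φ_cont := Units.continuous_val
      e_cont := hexpc
      j_cont := hjc
      n_add := hna
      e_add := fun s u => by
        apply Units.ext
        exact Complex.exp_add s u
      ι_compact := fun R => by
        have h := hιc.isCompact_preimage (isCompact_closedBall (0 : W) R)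
        convert h using 1
        ext y; simp
      j_compact := fun R => by
        have hemb := Units.isClosedEmbedding_embedProduct (α := ℂ)
        have hK : IsCompact ((Metric.closedBall (0 : ℂ) R) ×ˢ
            (MulOpposite.unop ⁻¹' (Metric.closedBall (0 : ℂ) R))) := by
          apply (isCompact_closedBall (0 : ℂ) R).prod
          have : IsCompact (MulOpposite.op '' (Metric.closedBall (0 : ℂ) R)) :=
            (isCompact_closedBall (0 : ℂ) R).image MulOpposite.continuous_op
          convert this using 1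
          ext z
          constructor
          · intro hz
            exact ⟨z.unop, hz, rfl⟩
          · rintro ⟨w, hw, rfl⟩
            exact hw
        have h := hemb.isCompact_preimage hK
        convert h using 1
        ext z
        simp only [mem_ofPred_eq, mem_preimage, Units.embedProduct_apply, mem_prod,
          Metric.mem_closedBall, dist_zero_right, MulOpposite.unop_op, Prod.norm_def, sup_le_iff]
      escape := fun M => by
        refine ⟨((Real.log (M ^ 2 + 1) : ℝ) : ℂ), ?_⟩
        intro z hz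
        have a1 : Complex.exp ((Real.log (M ^ 2 + 1) : ℝ) : ℂ) = ((M ^ 2 + 1 : ℝ) : ℂ) := by
          rw [← Complex.ofReal_exp, Real.exp_log (by positivity)]
        have hz1 : ‖(z : ℂ)‖ ≤ M := (norm_fst_le _).trans hz
        have hz2 : ‖((z⁻¹ : ℂˣ) : ℂ)‖ ≤ M := (norm_snd_le _).trans hz
        have hM : 0 < M := (norm_pos_iff.mpr z.ne_zero).trans_le hz1
        have hz3 : ‖(z : ℂ)‖ * ‖((z⁻¹ : ℂˣ) : ℂ)‖ = 1 := by
          rw [← norm_mul, Units.mul_inv, norm_one]
        have hz4 : 1 ≤ ‖(z : ℂ)‖ * M := by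
          rw [← hz3]; gcongr
        refine lt_of_lt_of_le ?_ (norm_fst_le _)
        show M < ‖Complex.exp ((Real.log (M ^ 2 + 1) : ℝ) : ℂ) * (z : ℂ)‖
        rw [a1, norm_mul, Complex.norm_real, Real.norm_eq_abs, abs_of_pos (by positivity)]
        have a2 : M * (‖(z : ℂ)‖ * M) < (M ^ 2 + 1) * ‖(z : ℂ)‖ := by
          have := norm_pos_iff.mpr z.ne_zero
          nlinarith
        have a3 : M * 1 ≤ M * (‖(z : ℂ)‖ * M) := by gcongr
        linarith }
  have hsc : SecondCountableTopology ℂˣ :=
    (Units.isClosedEmbedding_embedProduct (α := ℂ)).isEmbedding.secondCountableTopology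
  obtain ⟨l, hl, hl2⟩ := exists_filter hn hna hne hι hιc.injective
  have hnb : (𝓝[≠] (1 : ℂˣ)).NeBot := by
    rw [← mem_closure_iff_nhdsWithin_neBot]
    rw [mem_closure_iff_seq_limit]
    refine ⟨fun k : ℕ => Units.mk0 (Complex.exp (1 / ((k : ℂ) + 1))) (Complex.exp_ne_zero _),
      ?_, ?_⟩
    · intro k
      simp only [mem_compl_iff, mem_singleton_iff]
      intro h
      have h4 : Complex.exp (1 / ((k : ℂ) + 1)) = 1 := congrArg Units.val h
      have h5 : (1 / ((k : ℂ) + 1)) = ((1 / ((k : ℝ) + 1) : ℝ) : ℂ) := by push_cast; rfl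
      rw [h5, ← Complex.ofReal_exp] at h4
      have h6 : Real.exp (1 / ((k : ℝ) + 1)) = 1 := by exact_mod_cast h4
      have h7 := Real.exp_eq_one_iff _ |>.mp h6
      have h8 : (0 : ℝ) < 1 / ((k : ℝ) + 1) := by positivity
      linarith
    · have h4 : Tendsto (fun k : ℕ => (1 / ((k : ℂ) + 1))) atTop (𝓝 0) :=
        tendsto_one_div_add_atTop_nhds_zero_nat
      have h5 := (hexpc.tendsto 0).comp h4
      have h6 : (1 : ℂˣ) = Units.mk0 (Complex.exp 0) (Complex.exp_ne_zero 0) := by
        apply Units.ext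
        simp
      rw [h6]
      exact h5
  refine isTame_of_ext X D hπ hσ ?_ hn hι hιc ?_ ?_ ?_ l hl2 Γ
  · convert hc using 1
    funext s
    exact hc'e s _ rfl
  · intro a ha
    have h4 : MDifferentiable 𝓘(ℂ, E) 𝓘(ℂ, ℂ) fun g => Complex.exp (a g) * t g :=
      ((mdifferentiable_iff_differentiable.mpr Complex.differentiable_exp).comp ha).mul ht
    exact h4
  · have h4 : MDifferentiable 𝓘(ℂ, E) 𝓘(ℂ, ℂ) fun g => (t g)⁻¹ := by
      intro g
      have h5 : DifferentiableAt ℂ (fun z : ℂ => z⁻¹) (t g) := differentiableAt_inv (h0 g)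
      exact (mdifferentiableAt_iff_differentiableAt.mpr h5).comp g (ht g)
    exact ht.prodMk_space h4
  · intro b b' k hbk
    show {z : ℂˣ | n ((z : ℂ) * b - (z : ℂ) * b') = k}.Countable
    by_cases hb : b = b'
    · have hk := hbk.resolve_left (fun h => h hb)
      have hn0 : n 0 = 1 := D.n_zero
      have : {z : ℂˣ | n ((z : ℂ) * b - (z : ℂ) * b') = k} = ∅ := by
        ext z
        simp only [hb, sub_self, mem_ofPred_eq, mem_empty_iff_false, iff_false]
        rw [hn0]
        exact fun h => hk h.symm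
      rw [this]
      exact countable_empty
    · have h4 := countable_level hn hna hne hι hιc.injective k
      refine h4.preimage_of_injOn (f := fun z : ℂˣ => (z : ℂ) * b - (z : ℂ) * b') ?_
      intro z _ w _ hzw
      simp only at hzw
      have h5 : ((z : ℂ) - w) * ((b : ℂ) - b') = 0 := by linear_combination hzw
      have h6 : (b : ℂ) - b' ≠ 0 := by
        intro h
        exact hb (Units.ext (sub_eq_zero.mp h))
      exact Units.ext (sub_eq_zero.mp ((mul_eq_zero.mp h5).resolve_right h6))

end Pool.Agent.Work.MP_970e75_an.Gen
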