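import Pool.Agent.Work.MP_970e75_an.Sl2Tame
import Pool.Agent.Work.MP_970e75_an.Gen.OneParam
import Pool.Agent.Work.MP_970e75_an.Gen.ExtTame

/-!
Complex Lie groups with an `SL₂`-equivariant proper embedding: discrete subgroups are tame.
-/

set_option linter.unusedSectionVars false

namespace Pool.Agent.Work.MP_970e75_an.Gen

open Filter Topology Set MeasureTheory Matrix
open scoped Manifold ContDiff
open Lin (SL entries pt conj MTriple)

variable {E : Type*} [NormedAddCommGroup E] [NormedSpace ℂ E] {G : Type*}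
  [TopologicalSpace G] [ChartedSpace E G] [Group G] [LieGroup 𝓘(ℂ, E) ω G]
  {V : Type*} [NormedAddCommGroup V] [NormedSpace ℂ V] [FiniteDimensional ℂ V] {N : ℕ}

/-- The invariant map `g ↦ (ι g, (ψ g) X (ψ g)⁻¹, (ψ g) P)`. -/
def qm (ι : G → V) (ψ : G → SL N) (X P : Matrix (Fin N) (Fin N) ℂ) (g : G) :
    V × ((Fin N → Fin N → ℂ) × (Fin N → Fin N → ℂ)) :=
  (ι g, (pt (conj (ψ g) X), pt ((ψ g : Matrix (Fin N) (Fin N) ℂ) * P)))

theorem qext_eq (X P : Matrix (Fin N) (Fin N) ℂ) (g : SL N) :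
    Lin.qext X P (entries g) = (pt (conj g X), pt ((g : Matrix (Fin N) (Fin N) ℂ) * P)) := by
  unfold Lin.qext
  apply Prod.ext
  · funext i j
    have h1 : (conj g X) i j = ∑ l, (∑ k, entries g i k * X k l) *
        (Matrix.adjugate (Matrix.of (entries g))) l j := by
      unfold conj
      rw [Matrix.SpecialLinearGroup.coe_inv, Matrix.mul_apply]
      apply Finset.sum_congr rfl
      intro l _
      rw [Matrix.mul_apply]
      rfl
    exact h1.symm
  · funext i j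
    rfl

theorem mdiff_qm {ι : G → V} {ψ : G → SL N} (hι : MDifferentiable 𝓘(ℂ, E) 𝓘(ℂ, V) ι)
    (hψ : MDifferentiable 𝓘(ℂ, E) 𝓘(ℂ, Fin N → Fin N → ℂ) fun g => entries (ψ g))
    (X P : Matrix (Fin N) (Fin N) ℂ) :
    MDifferentiable 𝓘(ℂ, E) 𝓘(ℂ, V × ((Fin N → Fin N → ℂ) × (Fin N → Fin N → ℂ)))
      (qm ι ψ X P) := by
  have h1 : MDifferentiable 𝓘(ℂ, E) 𝓘(ℂ, ((Fin N → Fin N → ℂ) × (Fin N → Fin N → ℂ)))
      fun g => Lin.qext X P (entries (ψ g)) :=
    (mdifferentiable_iff_differentiable.mpr (Lin.differentiable_qext X P)).comp hψ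
  have h2 := hι.prodMk_space h1
  convert h2 using 1
  funext g
  rw [qext_eq]
  rfl

theorem conj_mul_exp {g h : SL N} {X : Matrix (Fin N) (Fin N) ℂ} {s : ℂ}
    (hh : (h : Matrix (Fin N) (Fin N) ℂ) =
      (g : Matrix (Fin N) (Fin N) ℂ) * NormedSpace.exp (s • X)) (Z : Matrix (Fin N) (Fin N) ℂ) :
    conj h Z = conj g (NormedSpace.exp (s • X) * Z * NormedSpace.exp (-(s • X))) := by
  have h2 : ((h⁻¹ : SL N) : Matrix (Fin N) (Fin N) ℂ) =
      NormedSpace.exp (-(s • X)) * ((g⁻¹ : SL N) : Matrix (Fin N) (Fin N) ℂ) := by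
    have e1 : (NormedSpace.exp (-(s • X)) * ((g⁻¹ : SL N) : Matrix (Fin N) (Fin N) ℂ)) *
        (h : Matrix (Fin N) (Fin N) ℂ) = 1 := by
      rw [hh, mul_assoc, ← mul_assoc ((g⁻¹ : SL N) : Matrix (Fin N) (Fin N) ℂ),
        Lin.SL_inv_mul, one_mul, Lin.exp_neg_mul_smul]
    calc ((h⁻¹ : SL N) : Matrix (Fin N) (Fin N) ℂ)
        = 1 * ((h⁻¹ : SL N) : Matrix (Fin N) (Fin N) ℂ) := (one_mul _).symm
      _ = _ := by rw [← e1, mul_assoc, Lin.SL_mul_inv, mul_one]
  unfold conj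
  rw [h2, hh]
  simp only [mul_assoc]

theorem qm_mul {ι : G → V} {ψ : G → SL N} {X P : Matrix (Fin N) (Fin N) ℂ} {x : ℂ → G}
    (hx : ∀ g s, ι (g * x s) = ι g ∧ (ψ (g * x s) : Matrix (Fin N) (Fin N) ℂ) =
      (ψ g : Matrix (Fin N) (Fin N) ℂ) * NormedSpace.exp (s • X)) (hXP : X * P = 0) (g : G)
    (s : ℂ) : qm ι ψ X P (g * x s) = qm ι ψ X P g := by
  unfold qm
  have h0 := Lin.exp_conj_eq X X 0 0 (by simp) (by simp) (by simp) s
  rw [conj_mul_exp (hx g s).2 X, h0, (hx g s).1, (hx g s).2,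
    mul_assoc (ψ g : Matrix (Fin N) (Fin N) ℂ), Lin.exp_mul_of_mul_eq_zero X P hXP]
  simp

theorem norm_prod_le_iff' {A B : Type*} [SeminormedAddCommGroup A] [SeminormedAddCommGroup B]
    {x : A × B} {r : ℝ} : ‖x‖ ≤ r ↔ ‖x.1‖ ≤ r ∧ ‖x.2‖ ≤ r := norm_prod_le_iff

/-- The escape estimate for `G`. -/
theorem exists_escape_qm {ι : G → V} {ψ : G → SL N} {X H Y : Matrix (Fin N) (Fin N) ℂ}
    (h : MTriple X H Y) {x : ℂ → G}
    (hx : ∀ g s, ι (g * x s) = ι g ∧ (ψ (g * x s) : Matrix (Fin N) (Fin N) ℂ) =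
      (ψ g : Matrix (Fin N) (Fin N) ℂ) * NormedSpace.exp (s • X))
    (P P' : Matrix (Fin N) (Fin N) ℂ) (hP' : ∀ v, Y *ᵥ v = 0 → P' *ᵥ v = v) (M : ℝ) :
    ∃ (R : ℝ) (s : ℂ), ∀ g : G, ‖qm ι ψ Y P' g‖ ≤ M → ‖qm ι ψ Y P' (g * x s)‖ ≤ M →
      ‖qm ι ψ X P g‖ < R := by
  obtain ⟨C, hC⟩ := h.exists_escape P' (fun v hv => ⟨v, hP' v hv⟩) M
  refine ⟨max M (max C (N * C * ‖pt P‖)) + 1, 1, ?_⟩
  intro g h1 h2
  obtain ⟨a0, a1, a2⟩ := And.imp_right norm_prod_le_iff'.mp (norm_prod_le_iff'.mp h1)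
  obtain ⟨b0, b1, b2⟩ := And.imp_right norm_prod_le_iff'.mp (norm_prod_le_iff'.mp h2)
  simp only [qm] at a0 a1 a2 b0 b1 b2
  rw [conj_mul_exp (hx g 1).2 Y, h.conj_exp] at b1
  have e1 : Y + (1 : ℂ) • H - (1 : ℂ) ^ 2 • X = Y + H - X := by simp
  rw [e1] at b1
  obtain ⟨c1, c2⟩ := hC (ψ g) a1 b1 a2
  have hC0 : 0 ≤ C := (norm_nonneg _).trans c1
  have : ‖qm ι ψ X P g‖ ≤ max M (max C (N * C * ‖pt P‖)) := by
    apply norm_prod_le_iff'.mpr
    refine ⟨a0.trans (le_max_left _ _), norm_prod_le_iff'.mpr ⟨?_, ?_⟩⟩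
    · exact c1.trans ((le_max_left _ _).trans (le_max_right _ _))
    · refine (Lin.norm_pt_mul_le _ _).trans (le_trans ?_ ((le_max_right _ _).trans
        (le_max_right _ _)))
      gcongr
  linarith

/-- The flow data attached to an `sl₂`-triple. -/
noncomputable def sl2Flow {ι : G → V} {ψ : G → SL N} {X H Y : Matrix (Fin N) (Fin N) ℂ}
    (hι : Continuous ι) (hψ : Continuous fun g => entries (ψ g))
    (hemb : IsClosedEmbedding fun g => (ι g, entries (ψ g)))
    (h : MTriple X H Y) {x : ℂ → G} (hxc : Continuous x) (hxa : ∀ s t, x (s + t) = x s * x t)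
    (hx : ∀ g s, ι (g * x s) = ι g ∧ (ψ (g * x s) : Matrix (Fin N) (Fin N) ℂ) =
      (ψ g : Matrix (Fin N) (Fin N) ℂ) * NormedSpace.exp (s • X))
    (P P' : Matrix (Fin N) (Fin N) ℂ) (hXP : X * P = 0) (hP : ∀ v, X *ᵥ v = 0 → P *ᵥ v = v)
    (hP' : ∀ v, Y *ᵥ v = 0 → P' *ᵥ v = v) [IsTopologicalGroup G]
    (hqc : Continuous (qm ι ψ X P)) (hqc' : Continuous (qm ι ψ Y P'))
    [MeasurableSpace G] [BorelSpace G] (μ : Measure G) [μ.IsMulRightInvariant] :
    FlowData G μ (V × ((Fin N → Fin N → ℂ) × (Fin N → Fin N → ℂ))) where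
  q := qm ι ψ X P
  p g := ‖qm ι ψ Y P' g‖
  θ s g := g * x s
  q_cont := hqc
  p_cont := hqc'.norm
  θ_cont := continuous_snd.mul (hxc.comp continuous_fst)
  θ_zero g := by
    have h0 : x 0 = 1 := by
      have := hxa 0 0
      rw [add_zero] at this
      exact mul_eq_left.mp this.symm
    rw [h0, mul_one]
  θ_add s t g := by rw [add_comm, hxa, mul_assoc]
  θ_meas s := measurePreserving_mul_right μ _
  q_inv s g := qm_mul hx hXP g s
  compact R := by
    obtain ⟨C, hC⟩ := h.exists_bound P (fun v hv => ⟨v, hP v hv⟩) R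
    have hK : IsCompact ((fun g => (ι g, entries (ψ g))) ⁻¹'
        (Metric.closedBall (0 : V × (Fin N → Fin N → ℂ)) (max R C))) := by
      have hpV : ProperSpace V := FiniteDimensional.proper ℂ V
      exact hemb.isCompact_preimage (isCompact_closedBall _ _)
    refine hK.of_isClosed_subset ?_ ?_
    · exact (isClosed_le hqc.norm continuous_const).inter (isClosed_le hqc'.norm continuous_const)
    · rintro g ⟨h1, h2⟩
      obtain ⟨a0, -, a2⟩ := And.imp_right norm_prod_le_iff'.mp (norm_prod_le_iff'.mp h1)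
      obtain ⟨-, b1, -⟩ := And.imp_right norm_prod_le_iff'.mp (norm_prod_le_iff'.mp h2)
      simp only [mem_preimage, Metric.mem_closedBall, dist_zero_right]
      apply norm_prod_le_iff'.mpr
      exact ⟨a0.trans (le_max_left _ _), (hC (ψ g) b1 a2).trans (le_max_right _ _)⟩
  escape M := exists_escape_qm h hx P P' hP' M

/-- The set of parameters which do not separate two given points is finite. -/
theorem finite_bad_qm {ι : G → V} {ψ : G → SL N} {X H Y : Matrix (Fin N) (Fin N) ℂ}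
    (hinj : Function.Injective fun g => (ι g, entries (ψ g))) (h : MTriple X H Y) {y : ℂ → G}
    (hy : ∀ g s, ι (g * y s) = ι g ∧ (ψ (g * y s) : Matrix (Fin N) (Fin N) ℂ) =
      (ψ g : Matrix (Fin N) (Fin N) ℂ) * NormedSpace.exp (s • Y))
    (P : Matrix (Fin N) (Fin N) ℂ) (hP : ∀ v, X *ᵥ v = 0 → P *ᵥ v = v) (g g' : G)
    (hne : g ≠ g') : {s : ℂ | qm ι ψ X P (g * y s) = qm ι ψ X P (g' * y s)}.Finite := by
  by_contra hinf
  have hinf' : {s : ℂ | qm ι ψ X P (g * y s) = qm ι ψ X P (g' * y s)}.Infinite := hinf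
  set δ : SL N := (ψ g')⁻¹ * ψ g with hδ
  have key : ∀ s : ℂ, qm ι ψ X P (g * y s) = qm ι ψ X P (g' * y s) →
      conj δ (X - s • H - (s ^ 2) • Y) = X - s • H - (s ^ 2) • Y ∧
      (δ : Matrix (Fin N) (Fin N) ℂ) * (NormedSpace.exp (s • Y) * P) =
        NormedSpace.exp (s • Y) * P := by
    intro s hs
    have q1 : pt (conj (ψ (g * y s)) X) = pt (conj (ψ (g' * y s)) X) :=
      congrArg (fun z => z.2.1) hs
    have q2 : pt ((ψ (g * y s) : Matrix (Fin N) (Fin N) ℂ) * P) =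
        pt ((ψ (g' * y s) : Matrix (Fin N) (Fin N) ℂ) * P) := congrArg (fun z => z.2.2) hs
    have ptinj : ∀ A B : Matrix (Fin N) (Fin N) ℂ, pt A = pt B → A = B := fun A B hAB => hAB
    have q1' := ptinj _ _ q1
    have q2' := ptinj _ _ q2
    rw [conj_mul_exp (hy g s).2, conj_mul_exp (hy g' s).2, h.conj_exp'] at q1'
    rw [(hy g s).2, (hy g' s).2, mul_assoc, mul_assoc] at q2'
    have hδc : (δ : Matrix (Fin N) (Fin N) ℂ) =
        (((ψ g')⁻¹ : SL N) : Matrix (Fin N) (Fin N) ℂ) * (ψ g : Matrix (Fin N) (Fin N) ℂ) := by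
      rw [hδ, Matrix.SpecialLinearGroup.coe_mul]
    constructor
    · have e1 : ∀ Z : Matrix (Fin N) (Fin N) ℂ, conj δ Z =
          (((ψ g')⁻¹ : SL N) : Matrix (Fin N) (Fin N) ℂ) * conj (ψ g) Z *
            (ψ g' : Matrix (Fin N) (Fin N) ℂ) := by
        intro Z
        unfold conj
        rw [hδ, _root_.mul_inv_rev, inv_inv, Matrix.SpecialLinearGroup.coe_mul,
          Matrix.SpecialLinearGroup.coe_mul]
        simp only [mul_assoc]
      rw [e1, q1']
      unfold conj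
      calc (((ψ g')⁻¹ : SL N) : Matrix (Fin N) (Fin N) ℂ) *
            ((ψ g' : Matrix (Fin N) (Fin N) ℂ) * (X - s • H - s ^ 2 • Y) *
              (((ψ g')⁻¹ : SL N) : Matrix (Fin N) (Fin N) ℂ)) * (ψ g' : Matrix (Fin N) (Fin N) ℂ)
          = ((((ψ g')⁻¹ : SL N) : Matrix (Fin N) (Fin N) ℂ) *
              (ψ g' : Matrix (Fin N) (Fin N) ℂ)) * (X - s • H - s ^ 2 • Y) *
              ((((ψ g')⁻¹ : SL N) : Matrix (Fin N) (Fin N) ℂ) *
              (ψ g' : Matrix (Fin N) (Fin N) ℂ)) := by simp only [mul_assoc]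
        _ = _ := by rw [Lin.SL_inv_mul, one_mul, mul_one]
    · rw [hδc, mul_assoc, q2', ← mul_assoc, Lin.SL_inv_mul, one_mul]
  by_cases hδ1 : δ = 1
  · obtain ⟨s, hs⟩ := hinf'.nonempty
    have h1 : ι g = ι g' := by
      have := congrArg (fun z => z.1) hs
      simp only [qm] at this
      rw [(hy g s).1, (hy g' s).1] at this
      exact this
    have h2 : ψ g = ψ g' := (inv_mul_eq_one.mp hδ1).symm
    apply hne
    apply hinj
    simp only [h1, h2]
  · exact hinf' ((h.finite_bad P hP δ hδ1).subset key)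

/-- The main theorem for groups with an `SL₂`-equivariant embedding. -/
theorem isTame_of_sl2 {ι : G → V} {ψ : G → SL N} {X H Y : Matrix (Fin N) (Fin N) ℂ}
    (hι : MDifferentiable 𝓘(ℂ, E) 𝓘(ℂ, V) ι)
    (hψ : MDifferentiable 𝓘(ℂ, E) 𝓘(ℂ, Fin N → Fin N → ℂ) fun g => entries (ψ g))
    (hemb : IsClosedEmbedding fun g => (ι g, entries (ψ g)))
    (hX0 : X ≠ 0) (r1 : H * X - X * H = (2 : ℂ) • X) (r2 : H * Y - Y * H = -((2 : ℂ) • Y))
    (r3 : X * Y - Y * X = H) {x y : ℂ → G}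
    (hxh : MDifferentiable 𝓘(ℂ, ℂ) 𝓘(ℂ, E) x) (hyh : MDifferentiable 𝓘(ℂ, ℂ) 𝓘(ℂ, E) y)
    (hxa : ∀ s t, x (s + t) = x s * x t) (hya : ∀ s t, y (s + t) = y s * y t)
    (hx : ∀ g s, ι (g * x s) = ι g ∧ (ψ (g * x s) : Matrix (Fin N) (Fin N) ℂ) =
      (ψ g : Matrix (Fin N) (Fin N) ℂ) * NormedSpace.exp (s • X))
    (hy : ∀ g s, ι (g * y s) = ι g ∧ (ψ (g * y s) : Matrix (Fin N) (Fin N) ℂ) =
      (ψ g : Matrix (Fin N) (Fin N) ℂ) * NormedSpace.exp (s • Y))
    (Γ : Subgroup G) [DiscreteTopology Γ] : IsTame E (Γ : Set G) := by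
  have h : MTriple X H Y := ⟨r1, r2, r3⟩
  have hpV : ProperSpace V := FiniteDimensional.proper ℂ V
  have hY0 : Y ≠ 0 := by
    rintro rfl
    apply hX0
    have hH : H = 0 := by rw [← r3]; simp
    have h2 : (2 : ℂ) • X = 0 := by rw [← r1, hH]; simp
    exact (smul_eq_zero.mp h2).resolve_left two_ne_zero
  have hYn : ∃ k, Y ^ k = 0 := by
    obtain ⟨k, hk⟩ := h.triple.swap.nilpotent_E
    refine ⟨k, ?_⟩
    rw [← map_pow] at hk
    exact (map_eq_zero_iff _ (Matrix.toLinAlgEquiv' (R := ℂ) (n := Fin N)).injective).mp hk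
  obtain ⟨P, hXP, hP⟩ := Lin.exists_kernel_matrix X
  obtain ⟨P', hYP', hP'⟩ := Lin.exists_kernel_matrix Y
  have hTG : IsTopologicalGroup G := topologicalGroup_of_lieGroup 𝓘(ℂ, E) ω
  have hsc : SecondCountableTopology G := hemb.isEmbedding.secondCountableTopology
  have hlc : LocallyCompactSpace G := hemb.locallyCompactSpace
  have ht2 : T2Space G := hemb.isEmbedding.t2Space
  let _ : MeasurableSpace G := borel G
  have hB : BorelSpace G := ⟨rfl⟩
  have hcountΓ : Countable Γ := TopologicalSpace.separableSpace_iff_countable.mp inferInstance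
  obtain ⟨U, hU, hU1, hUdisj⟩ := exists_disjoint_nhd Γ
  set μ : Measure G := (Measure.haar : Measure G).inv with hμ
  have hq : MDifferentiable 𝓘(ℂ, E) 𝓘(ℂ, V × ((Fin N → Fin N → ℂ) × (Fin N → Fin N → ℂ)))
    (qm ι ψ X P) := mdiff_qm hι hψ X P
  have hq' : MDifferentiable 𝓘(ℂ, E) 𝓘(ℂ, V × ((Fin N → Fin N → ℂ) × (Fin N → Fin N → ℂ)))
    (qm ι ψ Y P') := mdiff_qm hι hψ Y P'
  -- the generic translate
  have hpair : ∀ γ γ' : Γ, γ ≠ γ' → ∀ᵐ s ∂(volume : Measure ℂ),
      μ {τ : G | qm ι ψ X P (τ * (γ * y s)) = qm ι ψ X P (τ * (γ' * y s))} = 0 := by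
    intro γ γ' hne
    set S : Set (ℂ × G) := {z | qm ι ψ X P (z.2 * (γ * y z.1)) =
      qm ι ψ X P (z.2 * (γ' * y z.1))} with hS
    have hSc : IsClosed S := by
      apply isClosed_eq
      · exact hq.continuous.comp (continuous_snd.mul (continuous_const.mul
          (hyh.continuous.comp continuous_fst)))
      · exact hq.continuous.comp (continuous_snd.mul (continuous_const.mul
          (hyh.continuous.comp continuous_fst)))
    have h1 : ((volume : Measure ℂ).prod μ) S = 0 := by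
      have hswap : (μ.prod (volume : Measure ℂ)) (Prod.swap ⁻¹' S) = 0 := by
        apply Measure.measure_prod_null_of_ae_null
          (hSc.preimage continuous_swap).measurableSet
        refine Eventually.of_forall fun τ => ?_
        show (volume : Measure ℂ) _ = 0
        apply Set.Countable.measure_zero
        have hfin := finite_bad_qm hemb.injective h hy P hP (τ * γ) (τ * γ') (by
          intro heq
          exact hne (Subtype.ext (mul_left_cancel heq)))
        refine (hfin.subset ?_).countable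
        intro s hs
        have hs' : qm ι ψ X P (τ * (γ * y s)) = qm ι ψ X P (τ * (γ' * y s)) := hs
        rw [← mul_assoc, ← mul_assoc] at hs'
        exact hs'
      have hmp : MeasurePreserving (Prod.swap : G × ℂ → ℂ × G) (μ.prod (volume : Measure ℂ))
          ((volume : Measure ℂ).prod μ) := Measure.measurePreserving_swap
      rw [← hmp.measure_preimage hSc.measurableSet.nullMeasurableSet]
      exact hswap
    exact (Measure.measure_prod_null hSc.measurableSet).mp h1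
  have hall : ∀ᵐ s ∂(volume : Measure ℂ), ∀ γ γ' : Γ, γ ≠ γ' →
      μ {τ : G | qm ι ψ X P (τ * (γ * y s)) = qm ι ψ X P (τ * (γ' * y s))} = 0 := by
    rw [ae_all_iff]
    intro γ
    rw [ae_all_iff]
    intro γ'
    by_cases hne : γ = γ'
    · exact Eventually.of_forall fun s hs => absurd hne hs
    · filter_upwards [hpair γ γ' hne] with s hs _ using hs
  obtain ⟨s0, hs0⟩ := hall.exists
  set σ : G := y s0 with hσ
  apply isTame_of_image (Γ : Set G) (Equiv.mulRight σ) (isAutomorphism_mulRight σ)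
  have hfx : ∀ (Z P₀ : Matrix (Fin N) (Fin N) ℂ) (z : ℂ → G),
      MDifferentiable 𝓘(ℂ, ℂ) 𝓘(ℂ, E) z →
      ∀ f : V × ((Fin N → Fin N → ℂ) × (Fin N → Fin N → ℂ)) → ℂ, Differentiable ℂ f →
      MDifferentiable 𝓘(ℂ, E) 𝓘(ℂ, E) fun g => g * z (f (qm ι ψ Z P₀ g)) := by
    intro Z P₀ z hz f hf
    exact mdiff_mul mdifferentiable_id (hz.comp
      ((mdifferentiable_iff_differentiable.mpr hf).comp (mdiff_qm hι hψ Z P₀)))
  have hy0 : y 0 = 1 := by
    have := hya 0 0
    rw [add_zero] at this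
    exact mul_eq_left.mp this.symm
  have hyne : ∃ s, y s ≠ 1 := by
    by_contra hcon
    push Not at hcon
    -- then `exp (sY) = 1` for all `s`
    obtain ⟨v, hv1, hv2⟩ := Lin.exists_vec Y hY0 hYn
    have h1 := (hy 1 1).2
    rw [hcon 1, mul_one] at h1
    have h2 : (NormedSpace.exp ((1 : ℂ) • Y) : Matrix (Fin N) (Fin N) ℂ) = 1 := by
      have h3 := congrArg (fun A => (((ψ 1)⁻¹ : SL N) : Matrix (Fin N) (Fin N) ℂ) * A) h1
      simp only [← mul_assoc] at h3
      rw [Lin.SL_inv_mul, one_mul] at h3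
      exact h3.symm
    have hcol : ∀ (A : Matrix (Fin N) (Fin N) ℂ) (i j : Fin N),
        (A * (Matrix.of fun i (_ : Fin N) => v i)) i j = (A *ᵥ v) i := by
      intro A i j
      simp [Matrix.mul_apply, Matrix.mulVec, dotProduct]
    have h4 := Lin.exp_mul_of_sq Y (Matrix.of fun i (_ : Fin N) => v i) (by
      ext i j
      rw [← mul_assoc, hcol, ← Matrix.mulVec_mulVec, hv2]
      rfl) 1
    rw [h2, one_mul] at h4
    apply hv1
    funext i
    have h5 := congrFun (congrFun h4 i) i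
    rw [Matrix.add_apply, Matrix.smul_apply, hcol] at h5
    simpa using h5
  obtain ⟨l, hl, hl2⟩ := exists_filter hyh hya hyne (hι.prodMk_space hψ) hemb.injective
  apply isTame_of_flows (μ := μ) (sl2Flow hι.continuous hψ.continuous hemb h hxh.continuous hxa hx
      P P' hXP hP hP' hq.continuous hq'.continuous μ) (qm ι ψ Y P') (fun g => rfl)
    (fun s g => g * y s) (fun g => by rw [hy0, mul_one])
    (fun s t g => by rw [add_comm, hya, mul_assoc])
    (fun s g => qm_mul hy hYP' g s) l ?_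
    (fun f hf => hfx X P x hxh f hf)
    (fun f hf => hfx Y P' y hyh f hf)
    (Equiv.mulRight σ '' (Γ : Set G)) ((Set.to_countable (Γ : Set G)).image _) ?_ U hU hU1 ?_
  · intro g K hK
    have hK' : IsCompact ((fun z => g⁻¹ * z) '' K) :=
      hK.image (continuous_const.mul continuous_id)
    filter_upwards [hl2 _ hK'] with s hs hmem
    apply hs
    exact ⟨_, hmem, by simp⟩
  · rintro _ ⟨γ, hγ, rfl⟩ _ ⟨γ', hγ', rfl⟩ hne
    exact hs0 ⟨γ, hγ⟩ ⟨γ', hγ'⟩ (by
      intro heq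
      apply hne
      have : γ = γ' := congrArg Subtype.val heq
      rw [this])
  · rintro _ ⟨γ, hγ, rfl⟩ _ ⟨γ', hγ', rfl⟩ τ hτ τ' hτ' hEq
    have h1 : τ * γ = τ' * γ' := by
      have : τ * (γ * σ) = τ' * (γ' * σ) := hEq
      rw [← mul_assoc, ← mul_assoc] at this
      exact mul_right_cancel this
    rw [hUdisj γ hγ γ' hγ' τ hτ τ' hτ' h1]

end Pool.Agent.Work.MP_970e75_an.Gen
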