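import Pool.Agent.Work.MP_970e75_an.Gen.Types
import Pool.Agent.Work.MP_970e75_an.Gen.Line
import Pool.Agent.Work.MP_970e75_an.Gen.Sl2
import Pool.Agent.Work.MP_970e75_an.Gen.Open

/-!
Discrete subgroups of Stein complex Lie groups are tame.
-/

namespace Pool.Agent.Work.MP_970e75_an.Gen

open scoped Manifold ContDiff Topology

variable {E : Type} [NormedAddCommGroup E] [NormedSpace ℂ E] {G : Type}
  [TopologicalSpace G] [ChartedSpace E G] [Group G] [LieGroup 𝓘(ℂ, E) ω G]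

theorem tame_of_kindOne (h : IsKindOne E G) (Γ : Subgroup G) [DiscreteTopology Γ] :
    IsTame E (Γ : Set G) := by
  obtain ⟨l, N, ι, ψ, X, H, Y, x, y, h1, h2, h3, h4, h5, h6, h7, h8, h9, h10, h11⟩ := h
  exact isTame_of_sl2 h1 h2 h3 h4 h5 h6 h7 h8.1 h9.1 h8.2 h9.2 h10 h11 Γ

theorem tame_of_kindTwo (h : IsKindTwo E G) (Γ : Subgroup G) [DiscreteTopology Γ] :
    IsTame E (Γ : Set G) := by
  obtain ⟨E', Y, _, _, _, _, _, _, ⟨l, ι, hι, hιc⟩, ⟨n, hn, hne⟩, T, π, σ, c, t, hT, h⟩ := h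
  rcases hT with rfl | rfl
  · refine isTame_of_additive π σ c t h.π_hol h.σ_hol h.c_oneParam.1 h.t_hol h.π_mul
      h.c_oneParam.2 ?_ ?_ h.π_mk ι hι hιc n hn.1 hn.2 hne Γ
    · intro g
      exact (h.t_iff g (t g)).mpr rfl
    · intro s y
      have := (h.t_iff (c s * σ y) s).mp (by rw [h.π_mk])
      exact this.symm
  · refine isTame_of_multiplicative π σ c t h.π_hol h.σ_hol h.c_oneParam.1 h.t_hol h.π_mul
      h.c_oneParam.2 ?_ ?_ ?_ h.π_mk ι hι hιc n hn.1 hn.2 hne Γ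
    · intro g hg
      obtain ⟨s, hs⟩ := h.t_surj g
      rw [hg] at hs
      exact Complex.exp_ne_zero s hs
    · intro g s hs
      exact (h.t_iff g s).mpr hs
    · intro s y
      have := (h.t_iff (c s * σ y) s).mp (by rw [h.π_mk])
      exact this.symm

theorem tame_final {G₀ : Type} [TopologicalSpace G₀] [ChartedSpace E G₀] [Group G₀]
    [LieGroup 𝓘(ℂ, E) ω G₀] (h : IsKindOne E G₀ ∨ IsKindTwo E G₀)
    (j : G₀ →* G) (hj : Topology.IsOpenEmbedding j) (hj1 : MDifferentiable 𝓘(ℂ, E) 𝓘(ℂ, E) j)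
    (k : G → G₀) (hk : ∀ g, k (j g) = g)
    (hk1 : MDifferentiableOn 𝓘(ℂ, E) 𝓘(ℂ, E) k (Set.range j))
    (Γ : Subgroup G) [DiscreteTopology Γ] : IsTame E (Γ : Set G) := by
  refine isTame_of_open j hj hj1 k hk hk1 (fun Γ₀ hΓ₀ => ?_) Γ
  rcases h with h | h
  · exact tame_of_kindOne h Γ₀
  · exact tame_of_kindTwo h Γ₀

end Pool.Agent.Work.MP_970e75_an.Gen
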